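import Pool.Agent.Q165.DA.Num6

/-! # Permutations of `Fin n` -/

namespace Q165.DA
open Finset Equiv

/-- The permutation `π` of size `n` contains the pattern `τ` of size `k`. -/
def Contains {k n : ℕ} (π : Perm (Fin n)) (τ : Perm (Fin k)) : Prop :=
  ∃ f : Fin k → Fin n, StrictMono f ∧ ∀ a b, τ a < τ b ↔ π (f a) < π (f b)

/-- the pattern 132. -/
def p132 : Perm (Fin 3) := swap 1 2

theorem contains_132 {n : ℕ} (π : Perm (Fin n)) :
    Contains π p132 ↔ ∃ i j k, i < j ∧ j < k ∧ π i < π k ∧ π k < π j := by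
  have e0 : p132 0 = 0 := by decide
  have e1 : p132 1 = 2 := by decide
  have e2 : p132 2 = 1 := by decide
  constructor
  · rintro ⟨f, hf, h⟩
    refine ⟨f 0, f 1, f 2, hf (by decide), hf (by decide), ?_, ?_⟩
    · rw [← h 0 2, e0, e2]; decide
    · rw [← h 2 1, e1, e2]; decide
  · rintro ⟨i, j, k, hij, hjk, h1, h2⟩
    refine ⟨![i, j, k], ?_, ?_⟩
    · intro a b hab
      fin_cases a <;> fin_cases b <;> simp at hab ⊢
      · exact hij
      · exact hij.trans hjk
      · exact hjk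
    · intro a b
      have h3 := h1.trans h2
      fin_cases a <;> fin_cases b <;> simp [e0, e1, e2] <;> first | assumption | (apply le_of_lt; assumption)

/-- extension of a permutation of `Fin n` to `ℕ`. -/
def ext (n : ℕ) : Perm (Fin n) →* Perm ℕ := Perm.extendDomainHom (Fin.equivSubtype : Fin n ≃ {i // i < n})

theorem ext_apply {n : ℕ} (σ : Perm (Fin n)) (i : Fin n) : ext n σ i = σ i := by
  have := Perm.extendDomain_apply_image σ (Fin.equivSubtype : Fin n ≃ {i // i < n}) i
  exact this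

theorem ext_supp {n : ℕ} (σ : Perm (Fin n)) : Supp n (ext n σ) := by
  intro k hk
  exact Perm.extendDomain_apply_not_subtype σ _ (not_lt.2 hk)

theorem ext_injective (n : ℕ) : Function.Injective (ext n) :=
  Perm.extendDomainHom_injective _

theorem ext_surj {n : ℕ} {π : Perm ℕ} (h : Supp n π) : ∃ σ, ext n σ = π := by
  refine ⟨⟨fun i => ⟨π i, (h.lt_iff _).2 i.2⟩, fun i => ⟨π⁻¹ i, (h.inv.lt_iff _).2 i.2⟩, ?_, ?_⟩, ?_⟩
  · intro i
    ext
    simp
  · intro i
    ext
    simp
  · ext k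
    rcases Nat.lt_or_ge k n with hk | hk
    · have := ext_apply (n := n) ⟨fun i => ⟨π i, (h.lt_iff _).2 i.2⟩,
        fun i => ⟨π⁻¹ i, (h.inv.lt_iff _).2 i.2⟩, by intro i; ext; simp, by intro i; ext; simp⟩ ⟨k, hk⟩
      exact this
    · rw [ext_supp _ k hk, h k hk]

theorem av_ext {n : ℕ} (σ : Perm (Fin n)) : Av (ext n σ) ↔ ¬ Contains σ p132 := by
  rw [contains_132]
  constructor
  · rintro h ⟨i, j, k, hij, hjk, h1, h2⟩
    refine h i j k hij hjk ?_ ?_
    · rw [ext_apply, ext_apply]; exact h1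
    · rw [ext_apply, ext_apply]; exact h2
  · intro h i j k hij hjk h1 h2
    have hs := ext_supp σ
    have hk : k < n := by
      by_contra hk
      rw [hs k (not_lt.1 hk)] at h2
      have hj : j < n := by
        by_contra hj
        rw [hs j (not_lt.1 hj)] at h2
        omega
      have := (hs.lt_iff j).2 hj
      omega
    apply h
    refine ⟨⟨i, by omega⟩, ⟨j, by omega⟩, ⟨k, hk⟩, ?_, ?_, ?_, ?_⟩
    · exact hij
    · exact hjk
    · have a := ext_apply σ ⟨i, by omega⟩
      have b := ext_apply σ ⟨k, hk⟩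
      simp only at a b
      rw [a, b] at h1
      exact h1
    · have a := ext_apply σ ⟨j, by omega⟩
      have b := ext_apply σ ⟨k, hk⟩
      simp only at a b
      rw [a, b] at h2
      exact h2

/-- `Ω_n^T(τ)`: all permutations `π` of size `n` such that `π ^ t` avoids `τ` for all `t ∈ T`. -/
def Omega {k : ℕ} (T : Set ℕ) (n : ℕ) (τ : Perm (Fin k)) : Set (Perm (Fin n)) :=
  {π | ∀ t ∈ T, ¬ Contains (π ^ t) τ}

theorem Omega_card (T : Set ℕ) (n : ℕ) :
    (Omega T n p132).ncard = {π : Perm ℕ | Supp n π ∧ ∀ t ∈ T, Av (π ^ t)}.ncard := by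
  rw [← Set.ncard_image_of_injective _ (ext_injective n)]
  congr 1
  ext π
  constructor
  · rintro ⟨σ, hσ, rfl⟩
    refine ⟨ext_supp σ, fun t ht => ?_⟩
    rw [← map_pow, av_ext]
    exact hσ t ht
  · rintro ⟨hs, h⟩
    obtain ⟨σ, rfl⟩ := ext_surj hs
    refine ⟨σ, fun t ht => ?_, rfl⟩
    rw [← av_ext, map_pow]
    exact h t ht

theorem Omega_S (n : ℕ) : (Omega {1, 2} n p132).ncard = (S n).ncard := by
  rw [Omega_card]
  congr 1
  ext π
  simp [S, pow_two]

theorem Omega_O (n : ℕ) : (Omega {1, 2, 3} n p132).ncard = (O n).ncard := by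
  rw [Omega_card]
  congr 1
  ext π
  simp [O, pow_succ]

theorem Omega_P (n : ℕ) : (Omega {t | 1 ≤ t} n p132).ncard = (P n).ncard := by
  rw [Omega_card]
  congr 1

end Q165.DA
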