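import Mathlib

/-!
# Powers of 132-avoiding permutations: definitions

Permutations of size `n` are permutations of `ℕ` which fix all `k ≥ n` (0-indexed: they permute
`{0, ..., n-1}`).  A permutation of `ℕ` with `Supp n π` avoids 132 as a permutation of `ℕ` iff it does on
`{0, ..., n-1}`.
-/

namespace Q165.DA
open Equiv

/-- `π` fixes every `k ≥ n`. -/
def Supp (n : ℕ) (π : Perm ℕ) : Prop := ∀ k, n ≤ k → π k = k

/-- `π` avoids the pattern 132. -/
def Av (π : Perm ℕ) : Prop := ∀ i j k, i < j → j < k → π i < π k → π k < π j → False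

/-- all 132-avoiding permutations of size `n`. -/
def A (n : ℕ) : Set (Perm ℕ) := {π | Supp n π ∧ Av π}

/-- the involutions (with the identity) among them. -/
def I (n : ℕ) : Set (Perm ℕ) := {π | Supp n π ∧ Av π ∧ π * π = 1}

/-- those with `π ^ 3 = 1`. -/
def T (n : ℕ) : Set (Perm ℕ) := {π | Supp n π ∧ Av π ∧ π * π * π = 1}

/-- those which strongly avoid 132. -/
def S (n : ℕ) : Set (Perm ℕ) := {π | Supp n π ∧ Av π ∧ Av (π * π)}

/-- `π`, `π ^ 2`, `π ^ 3` avoid 132. -/
def O (n : ℕ) : Set (Perm ℕ) := {π | Supp n π ∧ Av π ∧ Av (π * π) ∧ Av (π * π * π)}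

/-- the elements of `O n` with `π ^ 2 ≠ 1`, `π ^ 3 ≠ 1`. -/
def Z (n : ℕ) : Set (Perm ℕ) :=
  {π | Supp n π ∧ Av π ∧ Av (π * π) ∧ Av (π * π * π) ∧ π * π ≠ 1 ∧ π * π * π ≠ 1}

/-- the elements of `T n` with `π (n-1) < π⁻¹ (n-1)` (plus type). -/
def Tp (n : ℕ) : Set (Perm ℕ) := {π | π ∈ T n ∧ π (n - 1) < π⁻¹ (n - 1)}

/-- `c` is a cut of `π` (as a permutation of size `n`): the first `c` entries are larger than
the other `n - c` entries, `1 ≤ c < n`. -/
def IsCut (n : ℕ) (π : Perm ℕ) (c : ℕ) : Prop :=
  1 ≤ c ∧ c < n ∧ ∀ p q, p < c → c ≤ q → q < n → π q < π p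

/-- number of cuts of a plus type permutation; `0` for the others. -/
noncomputable def st (n : ℕ) (π : Perm ℕ) : ℕ :=
  open Classical in
  if π (n - 1) < π⁻¹ (n - 1) then ((Finset.range n).filter (IsCut n π)).card else 0

theorem Supp.lt_iff {n : ℕ} {π : Perm ℕ} (h : Supp n π) (k : ℕ) : π k < n ↔ k < n := by
  constructor
  · intro hk
    by_contra hc
    have := h k (not_lt.1 hc)
    omega
  · intro hk
    by_contra hc
    have h1 := h (π k) (not_lt.1 hc)
    have := π.injective h1
    omega

theorem Supp.one (n : ℕ) : Supp n 1 := fun _ _ => rfl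

theorem Supp.mul {n : ℕ} {π σ : Perm ℕ} (h : Supp n π) (h' : Supp n σ) : Supp n (π * σ) := by
  intro k hk
  rw [Perm.mul_apply, h' k hk, h k hk]

theorem Supp.inv {n : ℕ} {π : Perm ℕ} (h : Supp n π) : Supp n π⁻¹ := by
  intro k hk
  rw [Perm.inv_eq_iff_eq, h k hk]

theorem Supp.mono {m n : ℕ} {π : Perm ℕ} (h : Supp m π) (hmn : m ≤ n) : Supp n π :=
  fun k hk => h k (hmn.trans hk)

/-- a permutation of size `n` which fixes `n - 1` has size `n - 1`. -/
theorem Supp.pred {n : ℕ} {π : Perm ℕ} (h : Supp n π) (h1 : π (n - 1) = n - 1) :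
    Supp (n - 1) π := by
  intro k hk
  rcases Nat.lt_or_ge k n with hkn | hkn
  · have : k = n - 1 := by omega
    rw [this, h1]
  · exact h k hkn

theorem finite_supp (n : ℕ) : {π : Perm ℕ | Supp n π}.Finite := by
  classical
  have : ∀ π ∈ {π : Perm ℕ | Supp n π}, ∀ π' ∈ {π : Perm ℕ | Supp n π},
      (fun i : Fin n => π i) = (fun i : Fin n => π' i) → π = π' := by
    intro π h π' h' e
    ext k
    rcases Nat.lt_or_ge k n with hk | hk
    · exact congrFun e ⟨k, hk⟩
    · rw [h k hk, h' k hk]
  refine Set.Finite.of_finite_image (f := fun π : Perm ℕ => fun i : Fin n => π i) ?_ this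
  refine Set.Finite.subset (Set.Finite.pi' (fun _ : Fin n => Set.finite_lt_nat n)) ?_
  rintro _ ⟨π, h, rfl⟩ i
  exact (h.lt_iff i).2 i.2

theorem Av.inv {π : Perm ℕ} (h : Av π) : Av π⁻¹ := by
  intro i j k hij hjk h1 h2
  -- positions a = π⁻¹ i < c = π⁻¹ k < b = π⁻¹ j with values i < j < k
  refine h (π⁻¹ i) (π⁻¹ k) (π⁻¹ j) h1 h2 ?_ ?_
  · simpa using hij
  · simpa using hjk

theorem Av.one : Av 1 := by
  intro i j k hij hjk h1 h2
  simp only [Perm.one_apply] at h1 h2
  omega

/-- last entry: for a 132-avoiding permutation of size `n`, the entries at the last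
`π (n-1) + 1` positions are exactly the values `≤ π (n-1)`. -/
theorem Av.last {n : ℕ} {π : Perm ℕ} (hs : Supp n π) (h : Av π) (p : ℕ) (hp : p < n) :
    π p ≤ π (n - 1) ↔ n - 1 - π (n - 1) ≤ p := by
  classical
  set v := π (n - 1) with hv
  have hn : 0 < n := by omega
  have hvn : v < n := (hs.lt_iff _).2 (by omega)
  -- the set of positions with larger entries
  set B := (Finset.range n).filter (fun q => v < π q) with hB
  have hBd : ∀ q ∈ B, ∀ q' < q, q' ∈ B := by
    intro q hq q' hq'
    simp only [hB, Finset.mem_filter, Finset.mem_range] at hq ⊢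
    refine ⟨by omega, ?_⟩
    by_contra hc
    rw [not_lt] at hc
    have hq1 : q < n - 1 := by
      rcases Nat.lt_or_ge q (n - 1) with h1 | h1
      · exact h1
      · have : q = n - 1 := by omega
        rw [this] at hq
        exact absurd hq.2 (lt_irrefl _)
    have hlt : π q' < v := by
      rcases Nat.lt_or_ge (π q') v with h1 | h1
      · exact h1
      · exfalso
        have : π q' = π (n - 1) := le_antisymm hc h1
        have := π.injective this
        omega
    exact h q' q (n - 1) hq' hq1 hlt hq.2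
  have hBc : B.card = n - 1 - v := by
    have h1 : B.image π = Finset.Ioo v n := by
      ext x
      simp only [hB, Finset.mem_image, Finset.mem_filter, Finset.mem_range, Finset.mem_Ioo]
      constructor
      · rintro ⟨a, ⟨ha, ha'⟩, rfl⟩
        exact ⟨ha', (hs.lt_iff _).2 ha⟩
      · rintro ⟨h1, h2⟩
        refine ⟨π⁻¹ x, ⟨(hs.inv.lt_iff _).2 h2, ?_⟩, by simp⟩
        simpa using h1
    have h2 := Finset.card_image_of_injective B π.injective
    rw [h1, Nat.card_Ioo] at h2
    omega
  have hBr : B = Finset.range (n - 1 - v) := by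
    apply Finset.eq_of_subset_of_card_le
    · intro q hq
      rw [Finset.mem_range]
      by_contra hc
      have : Finset.range (q + 1) ⊆ B := by
        intro q' hq'
        rw [Finset.mem_range] at hq'
        rcases Nat.lt_or_ge q' q with h1 | h1
        · exact hBd q hq q' h1
        · have : q' = q := by omega
          rwa [this]
      have := Finset.card_le_card this
      rw [Finset.card_range, hBc] at this
      omega
    · rw [hBc, Finset.card_range]
  have hm : p ∈ B ↔ p < n - 1 - v := by rw [hBr, Finset.mem_range]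
  simp only [hB, Finset.mem_filter, Finset.mem_range] at hm
  constructor
  · intro h1
    by_contra h2
    have := (hm.2 (by omega)).2
    omega
  · intro h1
    by_contra h2
    have := hm.1 ⟨hp, by omega⟩
    omega

/-- position of the maximum: the values at positions `> e = π⁻¹ (n-1)` are exactly the values
`< n - 1 - e`. -/
theorem Av.max {n : ℕ} {π : Perm ℕ} (hs : Supp n π) (h : Av π) (p : ℕ) (hp : p < n) :
    π⁻¹ (n - 1) < p ↔ π p < n - 1 - π⁻¹ (n - 1) := by
  have h1 := Av.last hs.inv h.inv (π p) ((hs.lt_iff _).2 hp)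
  have h2 : π⁻¹ (π p) = p := π.symm_apply_apply p
  rw [h2] at h1
  omega

end Q165.DA
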