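import Pool.Agent.Q165.DA.Stm

/-!
# Project DA, job ZC: an upper bound for the number of the elements of `Z n`
-/

namespace Q165.DA.ZC3
open Equiv

theorem finZ (n : ℕ) : (Z n).Finite := (finite_supp n).subset (fun _ h => h.1)

theorem finA (n : ℕ) : (A n).Finite := (finite_supp n).subset (fun _ h => h.1)

theorem av_of_lt {n : ℕ} {π : Perm ℕ} (hs : Supp n π)
    (h : ∀ i j k, i < j → j < k → k < n → π i < π k → π k < π j → False) : Av π := by
  intro i j k hij hjk h1 h2
  rcases Nat.lt_or_ge k n with hk | hk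
  · exact h i j k hij hjk hk h1 h2
  · rw [hs k hk] at h2
    rcases Nat.lt_or_ge j n with hj | hj
    · have := (hs.lt_iff j).2 hj
      omega
    · rw [hs j hj] at h2
      omega

/-- a 132-avoiding permutation fixing `0` is the identity. -/
theorem eq_one {τ : Perm ℕ} (ha : Av τ) (h0 : τ 0 = 0) : τ = 1 := by
  have hpos : ∀ p, 0 < p → 0 < τ p := fun p hp => Nat.pos_of_ne_zero
    (fun h => by have := τ.injective (h.trans h0.symm); omega)
  have hm : StrictMono τ := by
    intro p q hpq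
    rcases Nat.eq_zero_or_pos p with rfl | hp
    · rw [h0]
      exact hpos q hpq
    · by_contra hc
      have hne : τ q ≠ τ p := fun h => by have := τ.injective h; omega
      exact ha 0 p q hp hpq (by rw [h0]; exact hpos q (by omega)) (by omega)
  have hm' : StrictMono (τ⁻¹ : Perm ℕ) := by
    intro p q hpq
    by_contra hc
    have := hm.monotone (not_lt.1 hc)
    have e1 : τ (τ⁻¹ p) = p := τ.apply_symm_apply p
    have e2 : τ (τ⁻¹ q) = q := τ.apply_symm_apply q
    rw [e1, e2] at this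
    omega
  ext x
  have h1 := hm.le_apply (x := x)
  have h2 := hm'.le_apply (x := τ x)
  have e1 : τ⁻¹ (τ x) = x := τ.symm_apply_apply x
  rw [e1] at h2
  rw [Perm.one_apply]
  omega

theorem bij {g : ℕ → ℕ} {μ : ℕ} (hi : Function.Injective g) (hf : ∀ k, μ ≤ k → g k = k) :
    Function.Bijective g := by
  refine ⟨hi, fun y => ?_⟩
  rcases Nat.lt_or_ge y μ with hy | hy
  · have hmaps : ∀ k ∈ Finset.range μ, g k ∈ Finset.range μ := by
      intro k hk
      rw [Finset.mem_range] at hk ⊢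
      by_contra hc
      have := hi (hf (g k) (not_lt.1 hc))
      omega
    have him : (Finset.range μ).image g = Finset.range μ := by
      apply Finset.eq_of_subset_of_card_le
      · intro z hz
        obtain ⟨k, hk, rfl⟩ := Finset.mem_image.1 hz
        exact hmaps k hk
      · rw [Finset.card_image_of_injective _ hi]
    have : y ∈ (Finset.range μ).image g := by
      rw [him, Finset.mem_range]
      exact hy
    obtain ⟨k, _, hk⟩ := Finset.mem_image.1 this
    exact ⟨k, hk⟩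
  · exact ⟨y, hf y hy⟩

open Classical in
/-- a function as a permutation, if it is bijective. -/
noncomputable def toP (g : ℕ → ℕ) : Perm ℕ :=
  if h : Function.Bijective g then Equiv.ofBijective g h else 1

theorem toP_apply {g : ℕ → ℕ} (h : Function.Bijective g) (x : ℕ) : toP g x = g x := by
  unfold toP
  rw [dif_pos h]
  rfl

/-- the function underlying `X`. -/
def gX (n r : ℕ) (π : Perm ℕ) (i : ℕ) : ℕ := if i < min r (n - 2 * r) then π (n - r + i) else i

theorem struct (hF : S_F01) (hB : S_ZB) {n r : ℕ} (hn : 1 ≤ n) {π : Perm ℕ} (h : π ∈ Z n)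
    (hlt : π (n - 1) < π⁻¹ (n - 1)) (hr : r = n - 1 - π⁻¹ (n - 1)) :
    1 ≤ r ∧ 2 * r ≤ n - 1 ∧
    (∀ p, min r (n - 2 * r) ≤ p → p < n - r → π p = p + r) ∧
    (∀ i, i < r → π (π (n - r + i)) = r + i) ∧
    (∀ i, i < r → min r (n - 2 * r) ≤ i → π (n - r + i) = i) ∧
    ∀ i, i < min r (n - 2 * r) → π (n - r + i) < min r (n - 2 * r) := by
  obtain ⟨hs, ha, ha2, ha3, hne2, hne3⟩ := h
  have hS : π ∈ S n := ⟨hs, ha, ha2⟩
  obtain ⟨f1, f2, _⟩ := hF n π hS hlt
  have he : π⁻¹ (n - 1) < n := (hs.inv.lt_iff _).2 (by omega)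
  have h0 : ¬ π (π (π 0)) = 0 := by
    intro h0
    exact hne3 (eq_one ha3 h0)
  obtain ⟨z1, z2⟩ := (hB n π hS hlt).resolve_left h0 r hr
  have hmax := fun p hp => Av.max hs ha p hp
  have e1 : ∀ p, min r (n - 2 * r) ≤ p → p < n - r → π p = p + r :=
    fun p hp hp' => z1 p hp (by omega)
  have e2 : ∀ i, i < r → min r (n - 2 * r) ≤ i → π (n - r + i) = i := by
    intro i hi hi'
    have h1 := z2 i hi
    have h2 := e1 i hi' (by omega)
    apply π.injective
    omega
  refine ⟨by omega, by omega, e1, z2, e2, ?_⟩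
  intro i hi
  have h1 := (hmax (n - r + i) (by omega)).1 (by omega)
  by_contra hc
  have h2 := e2 (π (n - r + i)) (by omega) (not_lt.1 hc)
  have h3 := π.injective h2
  omega

theorem gX_bij (hF : S_F01) (hB : S_ZB) {n r : ℕ} (hn : 1 ≤ n) {π : Perm ℕ} (h : π ∈ Z n)
    (hlt : π (n - 1) < π⁻¹ (n - 1)) (hr : r = n - 1 - π⁻¹ (n - 1)) :
    Function.Bijective (gX n r π) := by
  obtain ⟨c1, c2, c3, c4, c5, c6⟩ := struct hF hB hn h hlt hr
  apply bij (μ := min r (n - 2 * r))
  · intro i j hij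
    unfold gX at hij
    split_ifs at hij with h1 h2 h2
    · have := π.injective hij
      omega
    · have := c6 i h1
      omega
    · have := c6 j h2
      omega
    · exact hij
  · intro k hk
    unfold gX
    rw [if_neg (by omega)]

theorem gX_mem (hF : S_F01) (hB : S_ZB) {n r : ℕ} (hn : 1 ≤ n) {π : Perm ℕ} (h : π ∈ Z n)
    (hlt : π (n - 1) < π⁻¹ (n - 1)) (hr : r = n - 1 - π⁻¹ (n - 1)) :
    toP (gX n r π) ∈ A (min r (n - 2 * r)) := by
  have hb := gX_bij hF hB hn h hlt hr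
  have hs : Supp (min r (n - 2 * r)) (toP (gX n r π)) := by
    intro k hk
    rw [toP_apply hb]
    unfold gX
    rw [if_neg (by omega)]
  refine ⟨hs, av_of_lt hs ?_⟩
  intro i j k hij hjk hk h1 h2
  rw [toP_apply hb, toP_apply hb] at h1 h2
  unfold gX at h1 h2
  rw [if_pos (by omega), if_pos (by omega)] at h1
  rw [if_pos (by omega), if_pos (by omega)] at h2
  exact h.2.1 _ _ _ (by omega) (by omega) h1 h2

theorem gX_inj (hF : S_F01) (hB : S_ZB) {n r : ℕ} (hn : 1 ≤ n) {π π' : Perm ℕ} (h : π ∈ Z n)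
    (hlt : π (n - 1) < π⁻¹ (n - 1)) (hr : r = n - 1 - π⁻¹ (n - 1)) (h' : π' ∈ Z n)
    (hlt' : π' (n - 1) < π'⁻¹ (n - 1)) (hr' : r = n - 1 - π'⁻¹ (n - 1))
    (he : toP (gX n r π) = toP (gX n r π')) : π = π' := by
  obtain ⟨c1, c2, c3, c4, c5, c6⟩ := struct hF hB hn h hlt hr
  obtain ⟨d1, d2, d3, d4, d5, d6⟩ := struct hF hB hn h' hlt' hr'
  have hb := gX_bij hF hB hn h hlt hr
  have hb' := gX_bij hF hB hn h' hlt' hr'
  have hg : ∀ i, gX n r π i = gX n r π' i := by
    intro i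
    rw [← toP_apply hb, ← toP_apply hb', he]
  ext x
  rcases Nat.lt_or_ge x n with hx | hx
  · rcases Nat.lt_or_ge x (n - r) with hx2 | hx2
    · rcases Nat.lt_or_ge x (min r (n - 2 * r)) with hx3 | hx3
      · obtain ⟨i, hi⟩ := hb.2 x
        have hi' := (hg i).symm.trans hi
        have hiμ : i < min r (n - 2 * r) := by
          by_contra hc
          unfold gX at hi
          rw [if_neg hc] at hi
          omega
        unfold gX at hi hi'
        rw [if_pos hiμ] at hi hi'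
        have h1 := c4 i (by omega)
        have h2 := d4 i (by omega)
        rw [hi] at h1
        rw [hi'] at h2
        rw [h1, h2]
      · rw [c3 x hx3 hx2, d3 x hx3 hx2]
    · rcases Nat.lt_or_ge (x - (n - r)) (min r (n - 2 * r)) with hx3 | hx3
      · have := hg (x - (n - r))
        unfold gX at this
        rw [if_pos hx3, if_pos hx3] at this
        have hxe : n - r + (x - (n - r)) = x := by omega
        rwa [hxe] at this
      · have h1 := c5 (x - (n - r)) (by omega) hx3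
        have h2 := d5 (x - (n - r)) (by omega) hx3
        have hxe : n - r + (x - (n - r)) = x := by omega
        rw [hxe] at h1 h2
        rw [h1, h2]
  · rw [h.1 x hx, h'.1 x hx]

/-- the elements of minus type. -/
def Zm (n : ℕ) : Set (Perm ℕ) := {π | π ∈ Z n ∧ π (n - 1) < π⁻¹ (n - 1)}

/-- the elements of minus type with given `r`. -/
def Zmr (n r : ℕ) : Set (Perm ℕ) :=
  {π | π ∈ Z n ∧ π (n - 1) < π⁻¹ (n - 1) ∧ r = n - 1 - π⁻¹ (n - 1)}

theorem ncard_Zmr (hF : S_F01) (hB : S_ZB) {n : ℕ} (hn : 1 ≤ n) (r : ℕ) :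
    (Zmr n r).ncard ≤ (A (min r (n - 2 * r))).ncard := by
  apply Set.ncard_le_ncard_of_injOn (fun π => toP (gX n r π)) _ _ (finA _)
  · intro π h
    exact gX_mem hF hB hn h.1 h.2.1 h.2.2
  · intro π h π' h' he
    exact gX_inj hF hB hn h.1 h.2.1 h.2.2 h'.1 h'.2.1 h'.2.2 he

theorem ncard_Zm (hF : S_F01) (hB : S_ZB) {n : ℕ} (hn : 1 ≤ n) :
    (Zm n).ncard ≤ ∑ r ∈ Finset.Icc 1 ((n - 1) / 2), (A (min r (n - 2 * r))).ncard := by
  have hsub : Zm n ⊆ ⋃ r ∈ Finset.Icc 1 ((n - 1) / 2), Zmr n r := by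
    intro π h
    obtain ⟨c1, c2, _⟩ := struct hF hB hn h.1 h.2 rfl
    rw [Set.mem_iUnion₂]
    exact ⟨n - 1 - π⁻¹ (n - 1), Finset.mem_Icc.2 ⟨c1, by omega⟩, h.1, h.2, rfl⟩
  have hfin : (⋃ r ∈ Finset.Icc 1 ((n - 1) / 2), Zmr n r).Finite := by
    apply (finZ n).subset
    intro π h
    rw [Set.mem_iUnion₂] at h
    obtain ⟨r, _, h⟩ := h
    exact h.1
  refine (Set.ncard_le_ncard hsub hfin).trans ?_
  refine (Finset.set_ncard_biUnion_le _ _).trans ?_
  exact Finset.sum_le_sum (fun r _ => ncard_Zmr hF hB hn r)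

theorem inv_mem_Z {n : ℕ} {π : Perm ℕ} (h : π ∈ Z n) : π⁻¹ ∈ Z n := by
  obtain ⟨hs, ha, ha2, ha3, hne2, hne3⟩ := h
  refine ⟨hs.inv, ha.inv, ?_, ?_, ?_, ?_⟩
  · have := ha2.inv
    rwa [mul_inv_rev] at this
  · have := ha3.inv
    rwa [mul_inv_rev, mul_inv_rev, ← mul_assoc] at this
  · intro h
    apply hne2
    rw [← mul_inv_rev, inv_eq_one] at h
    exact h
  · intro h
    apply hne3
    rw [← mul_inv_rev, ← mul_inv_rev, inv_eq_one, ← mul_assoc] at h
    exact h

theorem zc (hF : S_F01) (hA : S_ZA) (hB : S_ZB) : S_ZC := by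
  intro n hn
  have hsub : Z n ⊆ Z (n - 1) ∪ (Zm n ∪ (fun π : Perm ℕ => π⁻¹) '' Zm n) := by
    intro π h
    by_cases h1 : π (n - 1) = n - 1
    · left
      exact ⟨h.1.pred h1, h.2⟩
    · right
      rcases Nat.lt_trichotomy (π (n - 1)) (π⁻¹ (n - 1)) with h2 | h2 | h2
      · left
        exact ⟨h, h2⟩
      · exact absurd (hA n π ⟨h.1, h.2.1, h.2.2.1⟩ h2 h1) h.2.2.2.2.1
      · right
        refine ⟨π⁻¹, ⟨inv_mem_Z h, ?_⟩, by simp⟩
        rw [inv_inv]
        exact h2
  have fm : (Zm n).Finite := (finZ n).subset (fun _ h => h.1)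
  have hfin : (Z (n - 1) ∪ (Zm n ∪ (fun π : Perm ℕ => π⁻¹) '' Zm n)).Finite :=
    (finZ _).union (fm.union (fm.image _))
  have h1 := Set.ncard_le_ncard hsub hfin
  have h2 := Set.ncard_union_le (Z (n - 1)) (Zm n ∪ (fun π : Perm ℕ => π⁻¹) '' Zm n)
  have h3 := Set.ncard_union_le (Zm n) ((fun π : Perm ℕ => π⁻¹) '' Zm n)
  have h4 := Set.ncard_image_le (f := fun π : Perm ℕ => π⁻¹) fm
  have h5 := ncard_Zm hF hB hn
  omega

end Q165.DA.ZC3

namespace Q165.DA

theorem zc3 : S_F01 → S_ZA → S_ZB → S_ZC := ZC3.zc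

end Q165.DA
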