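import Pool.Agent.Q165.DA.Bridge
import Pool.Agent.Q121.DA_CAT
import Pool.Agent.Q121.DA_F01
import Pool.Agent.Q121.DA_ZA
import Pool.Agent.Q102.DA.Fam
import Pool.Agent.Q165.DA.ZCcopy

/-! # Assembly -/

namespace Q165.DA
open Equiv Filter

theorem final (hI : S_Inv) (hZB : S_ZB) (hTP : S_F01 → S_TP) :
    Tendsto (fun n => ((Omega {1, 2, 3} n p132).ncard : ℝ) / (Omega {t | 1 ≤ t} n p132).ncard)
      atTop (nhds 1) ∧
    (∃ᶠ n in atTop, (21 / 20 : ℝ) * (Omega {1, 2, 3} n p132).ncard < (Omega {1, 2} (n - 1) p132).ncard) ∧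
    ¬ Tendsto (fun n => ((Omega {t | 1 ≤ t} n p132).ncard : ℝ) / (Omega {1, 2} (n - 1) p132).ncard)
      atTop (nhds 1) ∧
    ¬ Tendsto (fun n => ((Omega {1, 2, 3} n p132).ncard : ℝ) / (Omega {1, 2} (n - 1) p132).ncard)
      atTop (nhds 1) := by
  have hC : S_Cat := Q121.cat
  have hF01 : S_F01 := Q121.f01
  have hZ : S_ZC := zc3 hF01 Q121.za hZB
  have hT : S_TP := hTP hF01
  have hF : S_Fam := fam
  simp only [Omega_S, Omega_O, Omega_P]
  refine ⟨O_equiv_P hC hI hZ, ?_, no_limit hC hI hT hZ hF (fun n => (P n).ncard) P_le_O,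
    no_limit hC hI hT hZ hF (fun n => (O n).ncard) fun n => le_rfl⟩
  have h := main_no hC hI hT hZ hF
  rw [frequently_atTop]
  intro n0
  by_contra hc
  push Not at hc
  apply h
  refine ⟨n0, fun n hn => ?_⟩
  have := hc (n + 1) (by omega)
  simpa using this

end Q165.DA
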