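import Pool.Agent.Q165.DA.Stm

/-! # Project DA, job INV: the recursion for 132-avoiding involutions -/

namespace Q165.DA.INV
open Equiv Q165.DA

theorem inv_self (ρ : Perm ℕ) (i : ℕ) : ρ⁻¹ (ρ i) = i := ρ.symm_apply_apply i

theorem self_inv (ρ : Perm ℕ) (i : ℕ) : ρ (ρ⁻¹ i) = i := ρ.apply_symm_apply i

theorem sq {ρ : Perm ℕ} (h : ρ * ρ = 1) (i : ℕ) : ρ (ρ i) = i := by
  have := congrArg (fun f : Perm ℕ => f i) h
  simpa using this

/-- the function built from an outer block `X` and an inner involution `σ`. -/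
def g (N k : ℕ) (X σ : Perm ℕ) (i : ℕ) : ℕ :=
  if i < k then N - k + X⁻¹ i else if i < N - k then k + σ (i - k) else
    if i < N then X (i - (N - k)) else i

section
variable {N k : ℕ} {X σ : Perm ℕ}

theorem g1 {i : ℕ} (h : i < k) : g N k X σ i = N - k + X⁻¹ i := by
  rw [g, if_pos h]

theorem g2 {i : ℕ} (h : k ≤ i) (h' : i < N - k) : g N k X σ i = k + σ (i - k) := by
  rw [g, if_neg (by omega), if_pos h']

theorem g3 (hk : 2 * k ≤ N) {i : ℕ} (h : N - k ≤ i) (h' : i < N) :
    g N k X σ i = X (i - (N - k)) := by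
  rw [g, if_neg (by omega), if_neg (by omega), if_pos h']

theorem g4 (hk : 2 * k ≤ N) {i : ℕ} (h : N ≤ i) : g N k X σ i = i := by
  rw [g, if_neg (by omega), if_neg (by omega), if_neg (by omega)]

theorem g_invol (hk : 2 * k ≤ N) (hX : Supp k X) (hσ : Supp (N - 2 * k) σ) (h2 : σ * σ = 1) :
    Function.Involutive (g N k X σ) := by
  intro i
  rcases Nat.lt_or_ge i k with h | h
  · have h1 : X⁻¹ i < k := (hX.inv.lt_iff i).2 h
    rw [g1 h, g3 hk (by omega) (by omega), Nat.add_sub_cancel_left, self_inv]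
  rcases Nat.lt_or_ge i (N - k) with h' | h'
  · have h1 : σ (i - k) < N - 2 * k := (hσ.lt_iff _).2 (by omega)
    rw [g2 h h', g2 (by omega) (by omega), Nat.add_sub_cancel_left, sq h2]
    omega
  rcases Nat.lt_or_ge i N with h3 | h3
  · have h1 : X (i - (N - k)) < k := (hX.lt_iff _).2 (by omega)
    rw [g3 hk h' h3, g1 h1, inv_self]
    omega
  · rw [g4 hk h3, g4 hk h3]

/-- the function `g` as a permutation. -/
def G (N k : ℕ) (X σ : Perm ℕ) (h : Function.Involutive (g N k X σ)) : Perm ℕ := h.toPerm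

theorem G_apply (h : Function.Involutive (g N k X σ)) (i : ℕ) : G N k X σ h i = g N k X σ i := rfl

theorem G_mem {n j : ℕ} (hj : 2 * (j + 1) ≤ n + 1) (hX : X ∈ A j) (hσ : σ ∈ I (n - 1 - 2 * j))
    {π : Perm ℕ} (hπ : ∀ i, π i = g (n + 1) (j + 1) X σ i) : π ∈ I (n + 1) ∧ π n = j := by
  obtain ⟨sX, aX⟩ := hX
  obtain ⟨sσ, aσ, qσ⟩ := hσ
  have sX' : Supp (j + 1) X := sX.mono (by omega)
  have e0 : n - 1 - 2 * j = n + 1 - 2 * (j + 1) := by omega
  rw [e0] at sσ
  have hinv := g_invol (N := n + 1) (k := j + 1) hj sX' sσ qσ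
  have aX' := aX.inv
  have r1 : ∀ i, i < j + 1 → π i = n - j + X⁻¹ i ∧ X⁻¹ i < j + 1 := fun i hi => by
    refine ⟨?_, (sX'.inv.lt_iff i).2 hi⟩
    rw [hπ, g1 hi, show n + 1 - (j + 1) = n - j by omega]
  have r2 : ∀ i, j + 1 ≤ i → i < n - j → π i = j + 1 + σ (i - (j + 1)) ∧
      σ (i - (j + 1)) < n + 1 - 2 * (j + 1) := fun i hi hi' => by
    refine ⟨?_, (sσ.lt_iff _).2 (by omega)⟩
    rw [hπ, g2 hi (by omega)]
  have r3 : ∀ i, n - j ≤ i → i < n + 1 → π i = X (i - (n - j)) ∧ X (i - (n - j)) < j + 1 :=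
    fun i hi hi' => by
    refine ⟨?_, (sX'.lt_iff _).2 (by omega)⟩
    rw [hπ, g3 hj (by omega) hi', show n + 1 - (j + 1) = n - j by omega]
  have r4 : ∀ i, n + 1 ≤ i → π i = i := fun i hi => by rw [hπ, g4 hj hi]
  have s : Supp (n + 1) π := r4
  refine ⟨⟨s, ?_, ?_⟩, ?_⟩
  · intro a b c hab hbc h1 h2
    rcases Nat.lt_or_ge c (n + 1) with hc | hc
    · rcases Nat.lt_or_ge a (j + 1) with ha | ha
      · have u := r1 a ha
        rcases Nat.lt_or_ge c (j + 1) with hc1 | hc1
        · have v := r1 b (by omega)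
          have w := r1 c hc1
          exact aX' a b c hab hbc (by omega) (by omega)
        · rcases Nat.lt_or_ge c (n - j) with hc2 | hc2
          · have w := r2 c hc1 hc2
            omega
          · have w := r3 c hc2 hc
            omega
      · rcases Nat.lt_or_ge a (n - j) with ha' | ha'
        · have u := r2 a ha ha'
          rcases Nat.lt_or_ge c (n - j) with hc2 | hc2
          · have v := r2 b (by omega) (by omega)
            have w := r2 c (by omega) hc2
            exact aσ (a - (j + 1)) (b - (j + 1)) (c - (j + 1)) (by omega) (by omega) (by omega)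
              (by omega)
          · have w := r3 c hc2 hc
            omega
        · have u := r3 a ha' (by omega)
          have v := r3 b (by omega) (by omega)
          have w := r3 c (by omega) hc
          exact aX (a - (n - j)) (b - (n - j)) (c - (n - j)) (by omega) (by omega) (by omega)
            (by omega)
    · rw [r4 c hc] at h2
      rcases Nat.lt_or_ge b (n + 1) with hb | hb
      · have := (s.lt_iff b).2 hb
        omega
      · rw [r4 b hb] at h2
        omega
  · ext i
    rw [Perm.mul_apply, Perm.one_apply, hπ, hπ, hinv i]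
  · have := (r3 n (by omega) (by omega)).1
    rw [this, show n - (n - j) = j by omega, sX j le_rfl]

end

/-- the backward direction. -/
theorem back {n j : ℕ} (hj : j < n) {π : Perm ℕ} (h : π ∈ I (n + 1)) (hn : π n = j) :
    2 * (j + 1) ≤ n + 1 ∧ ∃ X σ : Perm ℕ, X ∈ A j ∧ σ ∈ I (n - 1 - 2 * j) ∧
      ∀ i, π i = g (n + 1) (j + 1) X σ i := by
  obtain ⟨s, a, q⟩ := h
  have qq : ∀ i, π (π i) = i := sq q
  have hinv : π⁻¹ = π := by
    rw [inv_eq_iff_mul_eq_one]
    exact q
  have hπj : π j = n := by rw [← hn, qq]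
  have hlast : ∀ p, p < n + 1 → (π p ≤ j ↔ n - j ≤ p) := fun p hp => by
    have := Av.last s a p hp
    rw [Nat.add_sub_cancel, hn] at this
    exact this
  have hmax : ∀ p, p < n + 1 → (j < p ↔ π p < n - j) := fun p hp => by
    have := Av.max s a p hp
    rw [Nat.add_sub_cancel, hinv, hn] at this
    exact this
  have hlt : ∀ p, p < n + 1 → π p < n + 1 := fun p hp => (s.lt_iff p).2 hp
  have h2j : 2 * j < n := by
    have := hlast j (by omega)
    rw [hπj] at this
    omega
  -- facts on the three blocks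
  have f1 : ∀ i, i < j + 1 → n - j ≤ π i ∧ π i < n + 1 := fun i hi => by
    have := hmax i (by omega)
    have := hlt i (by omega)
    omega
  have f3 : ∀ i, i < j + 1 → π (n - j + i) < j + 1 := fun i hi => by
    have := hlast (n - j + i) (by omega)
    omega
  have f2 : ∀ i, i < n + 1 - 2 * (j + 1) → j + 1 ≤ π (j + 1 + i) ∧ π (j + 1 + i) < n - j :=
    fun i hi => by
    have := hlast (j + 1 + i) (by omega)
    have := hmax (j + 1 + i) (by omega)
    omega
  let X : Perm ℕ :=
    { toFun := fun i => if i < j + 1 then π (n - j + i) else i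
      invFun := fun i => if i < j + 1 then π i - (n - j) else i
      left_inv := by
        intro i
        dsimp only
        by_cases hi : i < j + 1
        · rw [if_pos hi, if_pos (f3 i hi), qq]
          omega
        · rw [if_neg hi, if_neg hi]
      right_inv := by
        intro i
        dsimp only
        by_cases hi : i < j + 1
        · have := f1 i hi
          rw [if_pos hi, if_pos (by omega), Nat.add_sub_cancel' this.1, qq]
        · rw [if_neg hi, if_neg hi] }
  let σ : Perm ℕ :=
    { toFun := fun i => if i < n + 1 - 2 * (j + 1) then π (j + 1 + i) - (j + 1) else i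
      invFun := fun i => if i < n + 1 - 2 * (j + 1) then π (j + 1 + i) - (j + 1) else i
      left_inv := by
        intro i
        dsimp only
        by_cases hi : i < n + 1 - 2 * (j + 1)
        · have := f2 i hi
          rw [if_pos hi, if_pos (by omega), Nat.add_sub_cancel' this.1, qq]
          omega
        · rw [if_neg hi, if_neg hi]
      right_inv := by
        intro i
        dsimp only
        by_cases hi : i < n + 1 - 2 * (j + 1)
        · have := f2 i hi
          rw [if_pos hi, if_pos (by omega), Nat.add_sub_cancel' this.1, qq]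
          omega
        · rw [if_neg hi, if_neg hi] }
  have X1 : ∀ i, i < j + 1 → X i = π (n - j + i) := fun i hi => if_pos hi
  have X2 : ∀ i, j + 1 ≤ i → X i = i := fun i hi => if_neg (not_lt.2 hi)
  have Xi : ∀ i, i < j + 1 → X⁻¹ i = π i - (n - j) := fun i hi => if_pos hi
  have σ1 : ∀ i, i < n + 1 - 2 * (j + 1) → σ i = π (j + 1 + i) - (j + 1) := fun i hi => if_pos hi
  have σ2 : ∀ i, n + 1 - 2 * (j + 1) ≤ i → σ i = i := fun i hi => if_neg (not_lt.2 hi)
  have sX : Supp j X := by
    intro i hi
    rcases Nat.lt_or_ge i (j + 1) with h | h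
    · have : i = j := by omega
      subst this
      rw [X1 i h, show n - i + i = n by omega, hn]
    · exact X2 i h
  have sσ : Supp (n + 1 - 2 * (j + 1)) σ := σ2
  refine ⟨by omega, X, σ, ⟨sX, ?_⟩, ⟨?_, ?_, ?_⟩, ?_⟩
  · intro p q r hpq hqr h1 h2
    rcases Nat.lt_or_ge r (j + 1) with hr | hr
    · rw [X1 p (by omega), X1 r hr] at h1
      rw [X1 q (by omega), X1 r hr] at h2
      exact a _ _ _ (by omega) (by omega) h1 h2
    · rw [X2 r hr] at h2
      rcases Nat.lt_or_ge q j with hq | hq
      · have := (sX.lt_iff q).2 hq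
        omega
      · rw [sX q hq] at h2
        omega
  · rw [show n - 1 - 2 * j = n + 1 - 2 * (j + 1) by omega]
    exact sσ
  · intro p q r hpq hqr h1 h2
    rcases Nat.lt_or_ge r (n + 1 - 2 * (j + 1)) with hr | hr
    · rw [σ1 p (by omega), σ1 r hr] at h1
      rw [σ1 q (by omega), σ1 r hr] at h2
      exact a _ _ _ (by omega) (by omega) (show π (j + 1 + p) < π (j + 1 + r) by omega)
        (show π (j + 1 + r) < π (j + 1 + q) by omega)
    · rw [σ2 r hr] at h2
      rcases Nat.lt_or_ge q (n + 1 - 2 * (j + 1)) with hq | hq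
      · have := (sσ.lt_iff q).2 hq
        omega
      · rw [σ2 q hq] at h2
        omega
  · ext i
    rw [Perm.mul_apply, Perm.one_apply]
    exact σ.left_inv i
  · intro i
    rcases Nat.lt_or_ge i (j + 1) with h | h
    · have := f1 i h
      rw [g1 h, Xi i h]
      omega
    rcases Nat.lt_or_ge i (n - j) with h' | h'
    · have := f2 (i - (j + 1)) (by omega)
      rw [g2 h (by omega), σ1 _ (by omega)]
      rw [Nat.add_sub_cancel' h] at this ⊢
      omega
    rcases Nat.lt_or_ge i (n + 1) with h3 | h3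
    · rw [g3 (by omega) (by omega) h3, X1 _ (by omega)]
      congr 1
      omega
    · rw [g4 (by omega) h3, s i h3]

/-- the involutions with last entry `j`. -/
theorem fiber_card {n j : ℕ} (hj : 2 * (j + 1) ≤ n + 1) :
    {π | π ∈ I (n + 1) ∧ π n = j}.ncard = (A j).ncard * (I (n - 1 - 2 * j)).ncard := by
  classical
  rw [← Set.ncard_prod]
  symm
  have hinv : ∀ x ∈ A j ×ˢ I (n - 1 - 2 * j), Function.Involutive (g (n + 1) (j + 1) x.1 x.2) := by
    rintro ⟨X, σ⟩ ⟨hX, hσ⟩
    refine g_invol hj (hX.1.mono (by omega)) ?_ hσ.2.2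
    have := hσ.1
    rwa [show n - 1 - 2 * j = n + 1 - 2 * (j + 1) by omega] at this
  apply Set.ncard_congr (fun x hx => G (n + 1) (j + 1) x.1 x.2 (hinv x hx))
  · rintro ⟨X, σ⟩ hx
    exact G_mem hj hx.1 hx.2 (fun i => G_apply _ i)
  · rintro ⟨X, σ⟩ ⟨X', σ'⟩ hx hx' h
    have hi : ∀ i, g (n + 1) (j + 1) X σ i = g (n + 1) (j + 1) X' σ' i := fun i => by
      have := congrArg (fun f : Perm ℕ => f i) h
      exact this
    have s1 := hx.1.1
    have s2 := hx'.1.1
    have s3 := hx.2.1
    have s4 := hx'.2.1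
    simp only at s1 s2 s3 s4
    have hX : X = X' := by
      ext i
      rcases Nat.lt_or_ge i (j + 1) with h1 | h1
      · have := hi (n - j + i)
        rw [g3 hj (by omega) (by omega), g3 hj (by omega) (by omega)] at this
        rw [show n - j + i - (n + 1 - (j + 1)) = i by omega] at this
        exact this
      · rw [s1 i (by omega), s2 i (by omega)]
    have hσ : σ = σ' := by
      ext i
      rcases Nat.lt_or_ge i (n - 1 - 2 * j) with h1 | h1
      · have := hi (j + 1 + i)
        rw [g2 (by omega) (by omega), g2 (by omega) (by omega)] at this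
        rw [show j + 1 + i - (j + 1) = i by omega] at this
        omega
      · rw [s3 i h1, s4 i h1]
    rw [hX, hσ]
  · rintro π ⟨h, hn⟩
    obtain ⟨-, X, σ, hX, hσ, hπ⟩ := back (by omega) h hn
    refine ⟨(X, σ), ⟨hX, hσ⟩, ?_⟩
    ext i
    rw [G_apply, hπ]

theorem fin (n : ℕ) : (I n).Finite := (finite_supp n).subset fun _ h => h.1

theorem inv : S_Inv := by
  classical
  intro n
  have hf := fin (n + 1)
  have hsplit : I (n + 1) = I n ∪ {π | π ∈ I (n + 1) ∧ π n < n} := by
    ext π
    constructor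
    · intro h
      have := (h.1.lt_iff n).2 (by omega)
      rcases Nat.lt_or_ge (π n) n with h1 | h1
      · exact Or.inr ⟨h, h1⟩
      · left
        refine ⟨?_, h.2⟩
        have := Supp.pred h.1 (by rw [Nat.add_sub_cancel]; omega)
        rwa [Nat.add_sub_cancel] at this
    · rintro (h | h)
      · exact ⟨h.1.mono (by omega), h.2⟩
      · exact h.1
  have hd : Disjoint (I n) {π | π ∈ I (n + 1) ∧ π n < n} := by
    rw [Set.disjoint_left]
    rintro π h ⟨-, h1⟩
    have := h.1 n le_rfl
    omega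
  have hB : {π | π ∈ I (n + 1) ∧ π n < n}.ncard =
      ∑ j ∈ Finset.range ((n + 1) / 2), (A j).ncard * (I (n - 1 - 2 * j)).ncard := by
    have hf' : {π | π ∈ I (n + 1) ∧ π n < n}.Finite := hf.subset fun _ h => h.1
    rw [Set.ncard_eq_toFinset_card _ hf']
    have hmap : ∀ π ∈ hf'.toFinset, π n ∈ Finset.range ((n + 1) / 2) := by
      intro π hπ
      rw [Set.Finite.mem_toFinset] at hπ
      rw [Finset.mem_range]
      have := (back hπ.2 hπ.1 rfl).1
      omega
    rw [Finset.card_eq_sum_card_fiberwise hmap]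
    refine Finset.sum_congr rfl fun j hj => ?_
    rw [Finset.mem_range] at hj
    rw [← fiber_card (by omega : 2 * (j + 1) ≤ n + 1),
      Set.ncard_eq_toFinset_card _ (hf.subset fun _ h => h.1)]
    congr 1
    ext π
    simp only [Finset.mem_filter, Set.Finite.mem_toFinset, Set.mem_ofPred_eq]
    constructor
    · rintro ⟨⟨h1, -⟩, h2⟩
      exact ⟨h1, h2⟩
    · rintro ⟨h1, h2⟩
      exact ⟨⟨h1, by omega⟩, h2⟩
  calc (I (n + 1)).ncard = (I n ∪ {π | π ∈ I (n + 1) ∧ π n < n}).ncard := by rw [← hsplit]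
    _ = (I n).ncard + {π | π ∈ I (n + 1) ∧ π n < n}.ncard :=
      Set.ncard_union_eq hd (fin n) (hf.subset fun _ h => h.1)
    _ = _ := by rw [hB]

end Q165.DA.INV
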