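import Mathlib

/-! # Sums of Catalan numbers -/

namespace Q165.DA
open Finset

/-- `C(2J, J) / 4^J`. -/
noncomputable def uu (J : ℕ) : ℝ := (Nat.centralBinom J : ℝ) / 4 ^ J

theorem uu_succ (J : ℕ) : uu (J + 1) = uu J * ((2 * J + 1) / (2 * J + 2)) := by
  have h := Nat.succ_mul_centralBinom_succ J
  have h' : ((J : ℝ) + 1) * (Nat.centralBinom (J + 1) : ℝ) = 2 * (2 * J + 1) * Nat.centralBinom J := by
    exact_mod_cast h
  unfold uu
  have hJ : (0 : ℝ) < (J : ℝ) + 1 := by positivity
  rw [pow_succ]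
  field_simp
  nlinarith [h']

theorem cat_eq (J : ℕ) : (catalan J : ℝ) / 4 ^ (J + 1) = (uu J - uu (J + 1)) / 2 := by
  have h := succ_mul_catalan_eq_centralBinom J
  have h' : ((J : ℝ) + 1) * (catalan J : ℝ) = Nat.centralBinom J := by exact_mod_cast h
  rw [uu_succ]
  unfold uu
  rw [← h', pow_succ]
  have hJ : (0 : ℝ) < (J : ℝ) + 1 := by positivity
  field_simp
  ring

theorem uu_nonneg (J : ℕ) : 0 ≤ uu J := by unfold uu; positivity

theorem cat_sum (J : ℕ) : ∑ j ∈ range J, (catalan j : ℝ) / 4 ^ (j + 1) = (1 - uu J) / 2 := by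
  induction J with
  | zero => simp [uu]
  | succ J ih => rw [sum_range_succ, ih, cat_eq]; ring

theorem cat_sum_le (J : ℕ) : ∑ j ∈ range J, (catalan j : ℝ) / 4 ^ (j + 1) ≤ 1 / 2 := by
  rw [cat_sum]
  linarith [uu_nonneg J]

theorem uu_sq (J : ℕ) : uu J ^ 2 * (2 * J + 1) ≤ 1 := by
  induction J with
  | zero => simp [uu]
  | succ J ih =>
    rw [uu_succ]
    push_cast
    have hJ : (0 : ℝ) < 2 * (J : ℝ) + 2 := by positivity
    have h1 : (uu J * ((2 * J + 1) / (2 * J + 2))) ^ 2 * (2 * ((J : ℝ) + 1) + 1)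
        = (uu J ^ 2 * (2 * J + 1)) * ((2 * J + 1) * (2 * J + 3) / (2 * J + 2) ^ 2) := by
      field_simp
      ring
    rw [h1]
    have h2 : ((2 : ℝ) * J + 1) * (2 * J + 3) / (2 * J + 2) ^ 2 ≤ 1 := by
      rw [div_le_one (by positivity)]
      nlinarith
    have h3 : 0 ≤ uu J ^ 2 * (2 * (J : ℝ) + 1) := by positivity
    calc _ ≤ (1 : ℝ) * 1 := mul_le_mul ih h2 (by positivity) (by norm_num)
      _ = 1 := by norm_num

theorem uu_tendsto : Filter.Tendsto uu Filter.atTop (nhds 0) := by
  have h1 : ∀ J, uu J ≤ Real.sqrt (1 / (2 * J + 1)) := by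
    intro J
    apply Real.le_sqrt_of_sq_le
    rw [le_div_iff₀ (by positivity)]
    exact uu_sq J
  refine squeeze_zero uu_nonneg h1 ?_
  rw [← Real.sqrt_zero]
  refine (Real.continuous_sqrt.tendsto 0).comp ?_
  have : Filter.Tendsto (fun J : ℕ => (2 * (J : ℝ) + 1)) Filter.atTop Filter.atTop :=
    Filter.tendsto_atTop_add_const_right _ _
      (Filter.Tendsto.const_mul_atTop (by norm_num) tendsto_natCast_atTop_atTop)
  have h2 := this.inv_tendsto_atTop
  refine h2.congr fun J => ?_
  simp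

theorem cat_sum_tendsto : Filter.Tendsto (fun J => ∑ j ∈ range J, (catalan j : ℝ) / 4 ^ (j + 1))
    Filter.atTop (nhds (1 / 2)) := by
  simp_rw [cat_sum]
  have := (tendsto_const_nhds (x := (1 : ℝ))).sub uu_tendsto
  simpa using this.div_const 2

/-- partial sums of the Catalan series at `1/8`. -/
theorem cat8 (K : ℕ) : ∑ j ∈ range K, (catalan j : ℝ) / 8 ^ (j + 1) ≤ 3 / 20 := by
  induction K with
  | zero => simp; norm_num
  | succ K ih =>
    set Y := ∑ j ∈ range K, (catalan j : ℝ) / 8 ^ (j + 1) with hY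
    have hY0 : 0 ≤ Y := sum_nonneg fun _ _ => by positivity
    have h1 : ∑ j ∈ range (K + 1), (catalan j : ℝ) / 8 ^ (j + 1)
        = 1 / 8 + ∑ j ∈ range K, (catalan (j + 1) : ℝ) / 8 ^ (j + 2) := by
      rw [sum_range_succ']
      simp
      ring
    have h2 : ∑ j ∈ range K, (catalan (j + 1) : ℝ) / 8 ^ (j + 2) ≤ Y ^ 2 := by
      set F : ℕ × ℕ → ℝ := fun p => ((catalan p.1 : ℝ) / 8 ^ (p.1 + 1)) * ((catalan p.2 : ℝ) / 8 ^ (p.2 + 1))
        with hF
      have hF0 : ∀ p, 0 ≤ F p := fun p => by simp only [hF]; positivity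
      have h3 : ∀ j, (catalan (j + 1) : ℝ) / 8 ^ (j + 2) =
          ∑ p ∈ HasAntidiagonal.antidiagonal j, F p := by
        intro j
        rw [catalan_succ', Nat.cast_sum, sum_div]
        refine sum_congr rfl fun p hp => ?_
        rw [HasAntidiagonal.mem_antidiagonal] at hp
        simp only [hF]
        rw [← hp]
        push_cast
        rw [div_mul_div_comm, ← pow_add]
        congr 2
        omega
      have h4 : ∀ j ∈ range K, ∑ p ∈ HasAntidiagonal.antidiagonal j, F p =
          ∑ p ∈ ((range K ×ˢ range K).filter (fun p => p.1 + p.2 < K)).filter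
            (fun p => p.1 + p.2 = j), F p := by
        intro j hj
        rw [mem_range] at hj
        refine sum_congr ?_ fun _ _ => rfl
        ext p
        simp only [HasAntidiagonal.mem_antidiagonal, mem_filter, mem_product, mem_range]
        omega
      simp_rw [h3]
      rw [sum_congr rfl h4, sum_fiberwise_of_maps_to (g := fun p : ℕ × ℕ => p.1 + p.2)]
      · have h5 : ∑ p ∈ range K ×ˢ range K, F p = Y ^ 2 := by
          rw [sum_product, hY, sq, sum_mul_sum]
        rw [← h5]
        exact sum_le_sum_of_subset_of_nonneg (filter_subset _ _) fun p _ _ => hF0 p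
      · intro p hp
        rw [mem_filter] at hp
        exact mem_range.2 hp.2
    rw [h1]
    nlinarith

end Q165.DA
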