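import Pool.Agent.Q165.DA.Stm
import Pool.Agent.Q165.DA.Num1

/-! # The 132-avoiding involutions: `i_n ≤ 2^n`, and `∑ i_n / 2^n` diverges -/

namespace Q165.DA
open Finset Equiv Filter

theorem finite_A (n : ℕ) : (A n).Finite := (finite_supp n).subset fun _ h => h.1
theorem finite_I (n : ℕ) : (I n).Finite := (finite_supp n).subset fun _ h => h.1
theorem finite_T (n : ℕ) : (T n).Finite := (finite_supp n).subset fun _ h => h.1
theorem finite_S (n : ℕ) : (S n).Finite := (finite_supp n).subset fun _ h => h.1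
theorem finite_O (n : ℕ) : (O n).Finite := (finite_supp n).subset fun _ h => h.1
theorem finite_Z (n : ℕ) : (Z n).Finite := (finite_supp n).subset fun _ h => h.1

theorem supp_zero {π : Perm ℕ} (h : Supp 0 π) : π = 1 := by
  ext k
  exact h k (Nat.zero_le k)

theorem I_zero : I 0 = {1} := by
  ext π
  simp only [I, Set.mem_setOf_eq, Set.mem_singleton_iff]
  constructor
  · intro h
    exact supp_zero h.1
  · rintro rfl
    exact ⟨Supp.one 0, Av.one, by simp⟩

theorem card_I_zero : (I 0).ncard = 1 := by rw [I_zero, Set.ncard_singleton]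

theorem one_mem_I (n : ℕ) : (1 : Perm ℕ) ∈ I n := ⟨Supp.one n, Av.one, by simp⟩

/-- `i_n / 2^n`. -/
noncomputable def io (n : ℕ) : ℝ := ((I n).ncard : ℝ) / 2 ^ n

theorem io_nonneg (n : ℕ) : 0 ≤ io n := by unfold io; positivity

theorem io_succ (hC : S_Cat) (hI : S_Inv) (n : ℕ) : io (n + 1) = io n / 2 +
    ∑ j ∈ range ((n + 1) / 2), (catalan j : ℝ) / 4 ^ (j + 1) * io (n - 1 - 2 * j) := by
  unfold io
  rw [hI n]
  push_cast
  rw [add_div, sum_div, pow_succ]
  congr 1
  · field_simp
  · refine sum_congr rfl fun j hj => ?_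
    rw [mem_range] at hj
    have h1 : n + 1 = 2 * (j + 1) + (n - 1 - 2 * j) := by omega
    rw [hC j, ← pow_succ]
    conv_lhs => rw [h1, pow_add, pow_mul]
    rw [show ((2 : ℝ) ^ 2) = 4 by norm_num, mul_div_mul_comm]

theorem io_le (hC : S_Cat) (hI : S_Inv) (n : ℕ) : io n ≤ 1 := by
  induction n using Nat.strong_induction_on with
  | _ n ih =>
    rcases n with _ | n
    · unfold io; rw [card_I_zero]; norm_num
    · rw [io_succ hC hI]
      have h1 : ∑ j ∈ range ((n + 1) / 2), (catalan j : ℝ) / 4 ^ (j + 1) * io (n - 1 - 2 * j)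
          ≤ ∑ j ∈ range ((n + 1) / 2), (catalan j : ℝ) / 4 ^ (j + 1) := by
        refine sum_le_sum fun j hj => ?_
        have := ih (n - 1 - 2 * j) (by omega)
        have h0 : 0 ≤ (catalan j : ℝ) / 4 ^ (j + 1) := by positivity
        nlinarith
      have h2 := cat_sum_le ((n + 1) / 2)
      have h3 := ih n (by omega)
      linarith

/-- partial sums. -/
noncomputable def PI (N : ℕ) : ℝ := ∑ n ∈ range N, io n

theorem PI_mono : Monotone PI := by
  refine monotone_nat_of_le_succ fun n => ?_
  unfold PI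
  rw [sum_range_succ]
  linarith [io_nonneg n]

theorem PI_succ_le (hC : S_Cat) (hI : S_Inv) (J N : ℕ) :
    1 + PI (N + 2 * J) / 2 + (∑ j ∈ range J, (catalan j : ℝ) / 4 ^ (j + 1)) * PI N
      ≤ PI (N + 2 * J + 1) := by
  have h0 : PI (N + 2 * J + 1) = 1 + ∑ n ∈ range (N + 2 * J), io (n + 1) := by
    unfold PI
    rw [sum_range_succ', add_comm]
    congr 1
    unfold io
    rw [card_I_zero]; norm_num
  rw [h0, add_assoc]
  gcongr
  simp_rw [io_succ hC hI]
  rw [sum_add_distrib]
  gcongr
  · unfold PI; rw [sum_div]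
  · -- the double sum
    rw [sum_mul]
    have h1 : ∀ n ∈ range (N + 2 * J),
        ∑ j ∈ (range J).filter (fun j => 2 * j + 1 ≤ n), (catalan j : ℝ) / 4 ^ (j + 1) * io (n - 1 - 2 * j)
        ≤ ∑ j ∈ range ((n + 1) / 2), (catalan j : ℝ) / 4 ^ (j + 1) * io (n - 1 - 2 * j) := by
      intro n _
      apply sum_le_sum_of_subset_of_nonneg
      · intro j hj
        rw [mem_filter, mem_range] at hj
        rw [mem_range]
        omega
      · intro j _ _
        have := io_nonneg (n - 1 - 2 * j)
        positivity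
    refine le_trans ?_ (sum_le_sum h1)
    simp_rw [sum_filter]
    rw [sum_comm]
    refine sum_le_sum fun j hj => ?_
    rw [mem_range] at hj
    rw [← sum_filter, ← mul_sum]
    gcongr
    -- PI N ≤ ∑ over n in filter of io (n - 1 - 2 j)
    have h2 : ∑ n ∈ (range N).image (fun n => n + (2 * j + 1)), io (n - 1 - 2 * j) = PI N := by
      rw [sum_image (by intro a _ b _ h; simpa using h)]
      unfold PI
      refine sum_congr rfl fun n _ => ?_
      congr 1
      omega
    rw [← h2]
    apply sum_le_sum_of_subset_of_nonneg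
    · intro n hn
      rw [mem_image] at hn
      obtain ⟨a, ha, rfl⟩ := hn
      rw [mem_range] at ha
      rw [mem_filter, mem_range]
      omega
    · intro n _ _
      exact io_nonneg _

theorem PI_unbounded (hC : S_Cat) (hI : S_Inv) (K : ℝ) : ∃ N, K ≤ PI N := by
  by_contra hc
  push Not at hc
  have hb : BddAbove (Set.range PI) := ⟨K, by rintro _ ⟨n, rfl⟩; exact (hc n).le⟩
  have hlim := tendsto_atTop_ciSup PI_mono hb
  set L := ⨆ i, PI i with hL
  have hstep : ∀ J, 1 + L / 2 + (∑ j ∈ range J, (catalan j : ℝ) / 4 ^ (j + 1)) * L ≤ L := by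
    intro J
    have h1 : Tendsto (fun N => 1 + PI (N + 2 * J) / 2 +
        (∑ j ∈ range J, (catalan j : ℝ) / 4 ^ (j + 1)) * PI N) atTop
        (nhds (1 + L / 2 + (∑ j ∈ range J, (catalan j : ℝ) / 4 ^ (j + 1)) * L)) := by
      refine Tendsto.add (Tendsto.const_add 1 (Tendsto.div_const ?_ 2)) (hlim.const_mul _)
      exact hlim.comp (tendsto_add_atTop_nat (2 * J))
    have h2 : Tendsto (fun N => PI (N + 2 * J + 1)) atTop (nhds L) := by
      have := hlim.comp (tendsto_add_atTop_nat (2 * J + 1))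
      exact this
    exact le_of_tendsto_of_tendsto' h1 h2 (fun N => PI_succ_le hC hI J N)
  have h3 : 1 + L / 2 + (1 / 2) * L ≤ L := by
    refine le_of_tendsto (Tendsto.const_add _ (cat_sum_tendsto.mul_const L)) ?_
    exact Eventually.of_forall hstep
  linarith

end Q165.DA
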