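import Pool.Agent.Q165.DA.Num2

/-! # The 132-avoiding permutations with `π³ = 1`: `∑ t_n / 2^n ≤ 10` -/

namespace Q165.DA
open Finset Equiv Filter

theorem st_pos {n : ℕ} (hn : 1 ≤ n) {π : Perm ℕ} (h : π ∈ Tp n) : 1 ≤ st n π := by
  classical
  obtain ⟨⟨hs, hav, h3⟩, hp⟩ := h
  unfold st
  rw [if_pos hp, Nat.one_le_iff_ne_zero, ← Nat.pos_iff_ne_zero, card_pos]
  have he : π⁻¹ (n - 1) < n := (hs.inv.lt_iff _).2 (by omega)
  refine ⟨n - 1 - π (n - 1), ?_⟩
  rw [mem_filter, mem_range]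
  refine ⟨by omega, by omega, by omega, ?_⟩
  intro p q hp1 hq hqn
  have h1 := Av.last hs hav p (by omega)
  have h2 := Av.last hs hav q hqn
  by_contra hc
  rw [not_lt] at hc
  have h4 := h2.2 hq
  have h5 := h1.1 (hc.trans h4)
  omega

theorem st_le (n : ℕ) (π : Perm ℕ) : st n π ≤ n := by
  classical
  unfold st
  split_ifs
  · exact (card_filter_le _ _).trans (by simp)
  · exact Nat.zero_le n

theorem Tp_sub (n : ℕ) : Tp n ⊆ T n := fun _ h => h.1
theorem finite_Tp (n : ℕ) : (Tp n).Finite := (finite_T n).subset (Tp_sub n)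

/-- finsets. -/
noncomputable def Tf (n : ℕ) : Finset (Perm ℕ) := (finite_T n).toFinset
noncomputable def Tpf (n : ℕ) : Finset (Perm ℕ) := (finite_Tp n).toFinset

theorem mem_Tf {n : ℕ} {π : Perm ℕ} : π ∈ Tf n ↔ π ∈ T n := by unfold Tf; simp
theorem mem_Tpf {n : ℕ} {π : Perm ℕ} : π ∈ Tpf n ↔ π ∈ Tp n := by unfold Tpf; simp

theorem card_Tf (n : ℕ) : (Tf n).card = (T n).ncard := by
  unfold Tf; rw [Set.ncard_eq_toFinset_card _ (finite_T n)]
theorem card_Tpf (n : ℕ) : (Tpf n).card = (Tp n).ncard := by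
  unfold Tpf; rw [Set.ncard_eq_toFinset_card _ (finite_Tp n)]

noncomputable def Gf (n : ℕ) : ℝ := ∑ π ∈ Tf n, ((5 / 4 : ℝ) ^ (st n π + 1) - 1)
noncomputable def Qf (n : ℕ) : ℝ := ∑ π ∈ Tpf n, (5 / 4 : ℝ) ^ (st n π + 1)

theorem Gf_eq (n : ℕ) : Gf n = Qf n - (Tpf n).card + ((Tf n).card - (Tpf n).card) / 4 := by
  classical
  have hsub : Tpf n ⊆ Tf n := fun π h => mem_Tf.2 (Tp_sub n (mem_Tpf.1 h))
  unfold Gf Qf
  rw [← sum_sdiff hsub]
  have h1 : ∑ π ∈ Tf n \ Tpf n, ((5 / 4 : ℝ) ^ (st n π + 1) - 1) = ∑ π ∈ Tf n \ Tpf n, (1 / 4 : ℝ) := by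
    refine sum_congr rfl fun π hπ => ?_
    rw [Finset.mem_sdiff, mem_Tf, mem_Tpf] at hπ
    have : ¬ π (n - 1) < π⁻¹ (n - 1) := fun h => hπ.2 ⟨hπ.1, h⟩
    unfold st
    rw [if_neg this]
    norm_num
  rw [h1, sum_const, card_sdiff_of_subset hsub, nsmul_eq_mul, sum_sub_distrib, sum_const, nsmul_eq_mul,
    Nat.cast_sub (card_le_card hsub)]
  ring

theorem Gf_nonneg (n : ℕ) : 0 ≤ Gf n := by
  unfold Gf
  refine sum_nonneg fun π _ => ?_
  have : (1 : ℝ) ≤ (5 / 4 : ℝ) ^ (st n π + 1) := one_le_pow₀ (by norm_num)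
  linarith

theorem geom (s : ℕ) : ∑ i ∈ Icc 1 (s + 1), (5 / 4 : ℝ) ^ (i + 1) = 25 / 4 * ((5 / 4 : ℝ) ^ (s + 1) - 1) := by
  induction s with
  | zero => norm_num
  | succ s ih =>
    rw [sum_Icc_succ_top (by omega), ih]
    ring

theorem Qf_le (hC : S_Cat) (hT : S_TP) (n : ℕ) :
    Qf n ≤ 25 / 4 * ∑ k ∈ Icc 1 (n / 3), (catalan (k - 1) : ℝ) * Gf (n - 3 * k) := by
  classical
  rcases Nat.eq_zero_or_pos n with rfl | hn
  · have : Tpf 0 = ∅ := by
      rw [eq_empty_iff_forall_notMem]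
      intro π hπ
      rw [mem_Tpf] at hπ
      have h1 := supp_zero hπ.1.1
      have h2 := hπ.2
      rw [h1] at h2
      simp at h2
    unfold Qf
    rw [this]
    simp
  · -- fibre over st
    have h1 : Qf n = ∑ i ∈ Icc 1 n, (5 / 4 : ℝ) ^ (i + 1) *
        ({π | π ∈ Tp n ∧ st n π = i}.ncard : ℝ) := by
      unfold Qf
      rw [← sum_fiberwise_of_maps_to (s := Tpf n) (t := Icc 1 n) (g := fun π => st n π)]
      · refine sum_congr rfl fun i _ => ?_
        have h2 : ∑ π ∈ Tpf n with st n π = i, (5 / 4 : ℝ) ^ (st n π + 1)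
            = ∑ π ∈ Tpf n with st n π = i, (5 / 4 : ℝ) ^ (i + 1) := by
          refine sum_congr rfl fun π hπ => ?_
          rw [mem_filter] at hπ
          rw [hπ.2]
        rw [h2, sum_const, nsmul_eq_mul, mul_comm]
        congr 2
        rw [← Set.ncard_coe_finset]
        congr 1
        ext π
        simp [mem_Tpf]
      · intro π hπ
        rw [mem_Tpf] at hπ
        rw [mem_Icc]
        exact ⟨st_pos hn hπ, st_le n π⟩
    rw [h1]
    have h2 : ∀ i, ({π | π ∈ Tp n ∧ st n π = i}.ncard : ℝ) ≤ ∑ k ∈ Icc 1 (n / 3),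
        (catalan (k - 1) : ℝ) * ∑ σ ∈ Tf (n - 3 * k), if i ≤ st (n - 3 * k) σ + 1 then (1 : ℝ) else 0 := by
      intro i
      have h3 := hT n i hn
      have h4 : ({π | π ∈ Tp n ∧ st n π = i}.ncard : ℝ) ≤ ((∑ k ∈ Icc 1 (n / 3),
        (A (k - 1)).ncard * {σ | σ ∈ T (n - 3 * k) ∧ i ≤ st (n - 3 * k) σ + 1}.ncard : ℕ) : ℝ) := by
        exact_mod_cast h3
      refine h4.trans (le_of_eq ?_)
      push_cast
      refine sum_congr rfl fun k _ => ?_
      rw [hC (k - 1), ← sum_filter, sum_const, nsmul_eq_mul, mul_one]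
      congr 2
      rw [← Set.ncard_coe_finset]
      congr 1
      ext σ
      simp [mem_Tf]
    calc ∑ i ∈ Icc 1 n, (5 / 4 : ℝ) ^ (i + 1) * ({π | π ∈ Tp n ∧ st n π = i}.ncard : ℝ)
        ≤ ∑ i ∈ Icc 1 n, (5 / 4 : ℝ) ^ (i + 1) * ∑ k ∈ Icc 1 (n / 3),
          (catalan (k - 1) : ℝ) * ∑ σ ∈ Tf (n - 3 * k), if i ≤ st (n - 3 * k) σ + 1 then (1 : ℝ) else 0 := by
          refine sum_le_sum fun i _ => ?_
          have := h2 i
          gcongr
      _ = ∑ k ∈ Icc 1 (n / 3), (catalan (k - 1) : ℝ) * ∑ σ ∈ Tf (n - 3 * k),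
          ∑ i ∈ Icc 1 n, if i ≤ st (n - 3 * k) σ + 1 then (5 / 4 : ℝ) ^ (i + 1) else 0 := by
          simp_rw [mul_sum]
          rw [sum_comm]
          refine sum_congr rfl fun k _ => ?_
          rw [sum_comm]
          refine sum_congr rfl fun σ _ => ?_
          refine sum_congr rfl fun i _ => ?_
          split_ifs <;> ring
      _ ≤ ∑ k ∈ Icc 1 (n / 3), (catalan (k - 1) : ℝ) * ∑ σ ∈ Tf (n - 3 * k),
          (25 / 4 * ((5 / 4 : ℝ) ^ (st (n - 3 * k) σ + 1) - 1)) := by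
          refine sum_le_sum fun k _ => ?_
          gcongr with σ _
          rw [← geom, ← sum_filter]
          apply sum_le_sum_of_subset_of_nonneg
          · intro i hi
            rw [mem_filter, mem_Icc] at hi
            rw [mem_Icc]
            omega
          · intro i _ _
            positivity
      _ = _ := by
          rw [mul_sum]
          refine sum_congr rfl fun k _ => ?_
          unfold Gf
          rw [← mul_sum]
          ring

theorem T_rec (n : ℕ) : (Tf n).card ≤ (Tf (n - 1)).card + 2 * (Tpf n).card := by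
  classical
  have hsub : Tf n ⊆ Tf (n - 1) ∪ (Tpf n ∪ (Tpf n).image (fun π => π⁻¹)) := by
    intro π hπ
    rw [mem_Tf] at hπ
    obtain ⟨hs, hav, h3⟩ := hπ
    rw [mem_union, mem_union, mem_image, mem_Tf, mem_Tpf]
    by_cases h1 : π (n - 1) = n - 1
    · exact Or.inl ⟨hs.pred h1, hav, h3⟩
    · right
      rcases lt_trichotomy (π (n - 1)) (π⁻¹ (n - 1)) with h | h | h
      · exact Or.inl ⟨⟨hs, hav, h3⟩, h⟩
      · exfalso
        have h4 : π (π (n - 1)) = n - 1 := by rw [h]; exact π.apply_symm_apply _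
        have h5 : π (π (π (n - 1))) = n - 1 := by
          have := congrArg (fun f : Perm ℕ => f (n - 1)) h3
          simpa [Perm.mul_apply] using this
        rw [h4] at h5
        exact h1 h5
      · right
        refine ⟨π⁻¹, ?_, inv_inv π⟩
        rw [mem_Tpf]
        refine ⟨⟨hs.inv, hav.inv, ?_⟩, ?_⟩
        · rw [← mul_inv_rev, ← mul_inv_rev, ← mul_assoc, h3, inv_one]
        · rw [inv_inv]; exact h
  refine (card_le_card hsub).trans ((card_union_le _ _).trans ?_)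
  have h1 := card_union_le (Tpf n) ((Tpf n).image (fun π => π⁻¹))
  have h2 : ((Tpf n).image (fun π => π⁻¹)).card ≤ (Tpf n).card := card_image_le
  omega

theorem T_zero : (Tf 0).card = 1 := by
  classical
  have : Tf 0 = {1} := by
    ext π
    rw [mem_Tf, mem_singleton]
    constructor
    · intro h
      exact supp_zero h.1
    · rintro rfl
      exact ⟨Supp.one 0, Av.one, by simp⟩
  rw [this, card_singleton]

theorem T_sum (hC : S_Cat) (hT : S_TP) (N : ℕ) :
    ∑ n ∈ range N, ((T n).ncard : ℝ) / 2 ^ n ≤ 10 := by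
  classical
  simp_rw [← card_Tf]
  set τ := ∑ n ∈ range N, ((Tf n).card : ℝ) / 2 ^ n with hτ
  set P := ∑ n ∈ range N, ((Tpf n).card : ℝ) / 2 ^ n with hP
  set Q := ∑ n ∈ range N, Qf n / 2 ^ n with hQ
  set G := ∑ n ∈ range N, Gf n / 2 ^ n with hG
  have hτ0 : 0 ≤ τ := sum_nonneg fun _ _ => by positivity
  have hG0 : 0 ≤ G := sum_nonneg fun n _ => div_nonneg (Gf_nonneg n) (by positivity)
  have hGQ : G = Q - P + (τ - P) / 4 := by
    rw [hG, hQ, hP, hτ, ← sum_sub_distrib, ← sum_sub_distrib, sum_div, ← sum_add_distrib]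
    refine sum_congr rfl fun n _ => ?_
    rw [Gf_eq]
    field_simp
  -- Q ≤ (25/4) (3/20) G
  have hQG : Q ≤ 15 / 16 * G := by
    have h1 : Q ≤ ∑ n ∈ range N, 25 / 4 * ∑ k ∈ Icc 1 (n / 3),
        ((catalan (k - 1) : ℝ) / 8 ^ k) * (Gf (n - 3 * k) / 2 ^ (n - 3 * k)) := by
      refine sum_le_sum fun n _ => ?_
      rw [div_le_iff₀ (by positivity)]
      refine (Qf_le hC hT n).trans (le_of_eq ?_)
      rw [mul_assoc, sum_mul]
      congr 1
      refine sum_congr rfl fun k hk => ?_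
      rw [mem_Icc] at hk
      have h2 : (2 : ℝ) ^ n = 8 ^ k * 2 ^ (n - 3 * k) := by
        rw [show (8 : ℝ) = 2 ^ 3 by norm_num, ← pow_mul, ← pow_add]
        congr 1
        omega
      rw [h2]
      field_simp
    refine h1.trans ?_
    rw [← mul_sum]
    have h2 : ∑ n ∈ range N, ∑ k ∈ Icc 1 (n / 3),
        ((catalan (k - 1) : ℝ) / 8 ^ k) * (Gf (n - 3 * k) / 2 ^ (n - 3 * k))
        ≤ (∑ j ∈ range N, (catalan j : ℝ) / 8 ^ (j + 1)) * G := by
      rw [hG, sum_mul_sum, ← sum_product', sum_sigma']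
      set F : ℕ × ℕ → ℝ := fun p => ((catalan p.1 : ℝ) / 8 ^ (p.1 + 1)) * (Gf p.2 / 2 ^ p.2) with hF
      have hF0 : ∀ p, 0 ≤ F p := fun p => by
        simp only [hF]
        exact mul_nonneg (by positivity) (div_nonneg (Gf_nonneg _) (by positivity))
      have h3 : ∑ x ∈ (range N).sigma (fun n => Icc 1 (n / 3)),
          ((catalan (x.2 - 1) : ℝ) / 8 ^ x.2) * (Gf (x.1 - 3 * x.2) / 2 ^ (x.1 - 3 * x.2))
          = ∑ p ∈ ((range N).sigma (fun n => Icc 1 (n / 3))).image (fun x => (x.2 - 1, x.1 - 3 * x.2)), F p := by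
        rw [sum_image]
        · refine sum_congr rfl fun x hx => ?_
          rw [mem_sigma, mem_Icc] at hx
          simp only [hF]
          rw [show x.2 - 1 + 1 = x.2 by omega]
        · intro x hx y hy hxy
          rw [mem_coe, mem_sigma, mem_Icc] at hx hy
          simp only [Prod.mk.injEq] at hxy
          obtain ⟨x1, x2⟩ := x
          obtain ⟨y1, y2⟩ := y
          simp only at hx hy hxy
          obtain rfl : x2 = y2 := by omega
          obtain rfl : x1 = y1 := by omega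
          rfl
      rw [h3]
      apply sum_le_sum_of_subset_of_nonneg
      · intro p hp
        rw [mem_image] at hp
        obtain ⟨x, hx, rfl⟩ := hp
        rw [mem_sigma, mem_Icc, mem_range] at hx
        rw [mem_product, mem_range, mem_range]
        refine ⟨?_, ?_⟩ <;> simp only <;> omega
      · intro p _ _
        exact hF0 p
    have h3 := cat8 N
    nlinarith
  have hτP : τ ≤ 1 + τ / 2 + 2 * P := by
    rcases Nat.eq_zero_or_pos N with rfl | hN
    · simp [hτ, hP]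
    · obtain ⟨M, rfl⟩ : ∃ M, N = M + 1 := ⟨N - 1, by omega⟩
      have h1 : τ = 1 + ∑ n ∈ range M, ((Tf (n + 1)).card : ℝ) / 2 ^ (n + 1) := by
        rw [hτ, sum_range_succ', T_zero, add_comm]
        norm_num
      have h2 : P = ((Tpf 0).card : ℝ) + ∑ n ∈ range M, ((Tpf (n + 1)).card : ℝ) / 2 ^ (n + 1) := by
        rw [hP, sum_range_succ', add_comm]
        norm_num
      have h3 : ∑ n ∈ range M, ((Tf (n + 1)).card : ℝ) / 2 ^ (n + 1) ≤
          ∑ n ∈ range M, (((Tf n).card : ℝ) / 2 ^ n / 2 + 2 * (((Tpf (n + 1)).card : ℝ) / 2 ^ (n + 1))) := by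
        refine sum_le_sum fun n _ => ?_
        have h4 := T_rec (n + 1)
        have h5 : ((Tf (n + 1)).card : ℝ) ≤ (Tf n).card + 2 * (Tpf (n + 1)).card := by
          exact_mod_cast h4
        rw [div_le_iff₀ (by positivity)]
        have h6 : (((Tf n).card : ℝ) / 2 ^ n / 2 + 2 * (((Tpf (n + 1)).card : ℝ) / 2 ^ (n + 1))) * 2 ^ (n + 1)
            = (Tf n).card + 2 * (Tpf (n + 1)).card := by
          rw [pow_succ]
          field_simp
        rw [h6]
        exact h5
      rw [sum_add_distrib, ← sum_div, ← mul_sum] at h3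
      have h7 : ∑ n ∈ range M, ((Tf n).card : ℝ) / 2 ^ n ≤ τ := by
        rw [hτ, sum_range_succ]
        have : (0 : ℝ) ≤ ((Tf M).card : ℝ) / 2 ^ M := by positivity
        linarith
      have h8 : (0 : ℝ) ≤ (Tpf 0).card := by positivity
      linarith
  have hP5 : P ≤ τ / 5 := by
    have : Q ≤ G := hQG.trans (by linarith)
    linarith
  linarith

end Q165.DA
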