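import Pool.Agent.Q165.DA.Num3

/-! # The remaining elements: `z_n ≤ 100 (33/20)^n` -/

namespace Q165.DA
open Finset Equiv Filter

theorem catalan_le (k : ℕ) : (catalan k : ℝ) ≤ 4 ^ k := by
  have h := succ_mul_catalan_eq_centralBinom k
  have h2 : catalan k ≤ Nat.centralBinom k := by
    rw [← h]
    exact Nat.le_mul_of_pos_left _ (Nat.succ_pos k)
  have h3 : Nat.centralBinom k ≤ 4 ^ k := by
    rw [Nat.centralBinom_eq_two_mul_choose]
    calc (2 * k).choose k ≤ 2 ^ (2 * k) := Nat.choose_le_two_pow _ _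
      _ = 4 ^ k := by rw [pow_mul]; norm_num
  exact_mod_cast h2.trans h3

theorem catalan_min (n r : ℕ) (h : 2 * r ≤ n) : (catalan (min r (n - 2 * r)) : ℝ) ≤ (8 / 5) ^ n := by
  refine (catalan_le _).trans ?_
  have h1 : 3 * min r (n - 2 * r) ≤ n := by omega
  calc (4 : ℝ) ^ (min r (n - 2 * r)) ≤ ((8 / 5) ^ 3) ^ (min r (n - 2 * r)) := by
        gcongr; norm_num
    _ = (8 / 5) ^ (3 * min r (n - 2 * r)) := by rw [← pow_mul]
    _ ≤ (8 / 5) ^ n := pow_le_pow_right₀ (by norm_num) h1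

theorem Z_zero : (Z 0).ncard = 0 := by
  have : Z 0 = ∅ := by
    rw [Set.eq_empty_iff_forall_notMem]
    intro π h
    have h1 := supp_zero h.1
    have h2 := h.2.2.2.2.1
    rw [h1] at h2
    simp at h2
  rw [this, Set.ncard_empty]

theorem nx (n : ℕ) : (n : ℝ) * (8 / 5) ^ n ≤ 32 * (33 / 20) ^ n := by
  have h1 : (1 : ℝ) + n * (1 / 32) ≤ (1 + 1 / 32) ^ n := one_add_mul_le_pow (by norm_num) n
  have h2 : (33 / 20 : ℝ) ^ n = (8 / 5) ^ n * (1 + 1 / 32) ^ n := by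
    rw [← mul_pow]; norm_num
  rw [h2]
  have h3 : (0 : ℝ) < (8 / 5) ^ n := by positivity
  nlinarith

theorem Z_le (hC : S_Cat) (hZ : S_ZC) (n : ℕ) : ((Z n).ncard : ℝ) ≤ 100 * (33 / 20) ^ n := by
  induction n with
  | zero => rw [Z_zero]; norm_num
  | succ n ih =>
    have h1 := hZ (n + 1) (by omega)
    have h2 : ((Z (n + 1)).ncard : ℝ) ≤ (Z n).ncard +
        2 * ∑ r ∈ Icc 1 (n / 2), (catalan (min r (n + 1 - 2 * r)) : ℝ) := by
      have h3 : ((Z (n + 1)).ncard : ℝ) ≤ (((Z (n + 1 - 1)).ncard +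
        2 * ∑ r ∈ Icc 1 ((n + 1 - 1) / 2), (A (min r (n + 1 - 2 * r))).ncard : ℕ) : ℝ) := by
        exact_mod_cast h1
      refine h3.trans (le_of_eq ?_)
      push_cast
      congr 2
      refine sum_congr rfl fun r _ => ?_
      rw [hC]
    have h4 : ∑ r ∈ Icc 1 (n / 2), (catalan (min r (n + 1 - 2 * r)) : ℝ)
        ≤ ∑ r ∈ Icc 1 (n / 2), (8 / 5 : ℝ) ^ (n + 1) := by
      refine sum_le_sum fun r hr => ?_
      rw [mem_Icc] at hr
      exact catalan_min (n + 1) r (by omega)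
    rw [sum_const, nsmul_eq_mul, Nat.card_Icc] at h4
    have h5 : ((n / 2 + 1 - 1 : ℕ) : ℝ) * 2 ≤ ((n + 1 : ℕ) : ℝ) := by
      have : (n / 2 + 1 - 1) * 2 ≤ n + 1 := by omega
      exact_mod_cast this
    have h6 := nx (n + 1)
    have h7 : (0 : ℝ) < (8 / 5) ^ (n + 1) := by positivity
    have h8 : (0 : ℝ) < (33 / 20) ^ n := by positivity
    have h9 : 2 * (((n / 2 + 1 - 1 : ℕ) : ℝ) * (8 / 5) ^ (n + 1)) ≤ ((n + 1 : ℕ) : ℝ) * (8 / 5) ^ (n + 1) := by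
      nlinarith
    rw [pow_succ (33 / 20 : ℝ) n] at h6 ⊢
    nlinarith

theorem Z_sum (hC : S_Cat) (hZ : S_ZC) (N : ℕ) :
    ∑ n ∈ range N, ((Z n).ncard : ℝ) / 2 ^ n ≤ 600 := by
  have h1 : ∑ n ∈ range N, ((Z n).ncard : ℝ) / 2 ^ n ≤ ∑ n ∈ range N, 100 * (33 / 40 : ℝ) ^ n := by
    refine sum_le_sum fun n _ => ?_
    rw [div_le_iff₀ (by positivity)]
    refine (Z_le hC hZ n).trans (le_of_eq ?_)
    rw [mul_assoc, ← mul_pow]
    norm_num
  rw [← mul_sum] at h1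
  have h2 : ∑ n ∈ range N, (33 / 40 : ℝ) ^ n ≤ 40 / 7 := by
    rw [geom_sum_eq (by norm_num)]
    have : (0 : ℝ) < (33 / 40) ^ N := by positivity
    rw [div_le_iff_of_neg (by norm_num)]
    linarith
  linarith

end Q165.DA
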