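import Pool.Agent.Q165.DA.Num4

/-! # The ratio `|Ω_{n+1}| / |SAv_n|` does not tend to `1` -/

namespace Q165.DA
open Finset Equiv Filter

theorem O_card (n : ℕ) : (O n).ncard ≤ (I n).ncard + (T n).ncard + (Z n).ncard := by
  have hsub : O n ⊆ (I n ∪ T n) ∪ Z n := by
    rintro π ⟨hs, h1, h2, h3⟩
    by_cases h4 : π * π = 1
    · exact Or.inl (Or.inl ⟨hs, h1, h4⟩)
    · by_cases h5 : π * π * π = 1
      · exact Or.inl (Or.inr ⟨hs, h1, h5⟩)
      · exact Or.inr ⟨hs, h1, h2, h3, h4, h5⟩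
  have hfin : ((I n ∪ T n) ∪ Z n).Finite := ((finite_I n).union (finite_T n)).union (finite_Z n)
  calc (O n).ncard ≤ ((I n ∪ T n) ∪ Z n).ncard := Set.ncard_le_ncard hsub hfin
    _ ≤ (I n ∪ T n).ncard + (Z n).ncard := Set.ncard_union_le _ _
    _ ≤ _ := by gcongr; exact Set.ncard_union_le _ _

noncomputable def ss (n : ℕ) : ℝ := ((S n).ncard : ℝ) / 2 ^ n
noncomputable def SS (N : ℕ) : ℝ := ∑ n ∈ range N, ss n

theorem ss_nonneg (n : ℕ) : 0 ≤ ss n := by unfold ss; positivity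

theorem SS_mono : Monotone SS := by
  refine monotone_nat_of_le_succ fun n => ?_
  unfold SS
  rw [sum_range_succ]
  linarith [ss_nonneg n]

theorem SS_nonneg (N : ℕ) : 0 ≤ SS N := sum_nonneg fun n _ => ss_nonneg n

theorem ss_fam (hF : S_Fam) (n : ℕ) :
    ss (n + 5) / 2 + ss (n + 3) / 4 + ss n / 64 + io (n + 6) - io (n + 5) / 2 ≤ ss (n + 6) := by
  have h := hF (n + 6) (by omega)
  rw [show n + 6 - 1 = n + 5 by omega, show n + 6 - 3 = n + 3 by omega,
    show n + 6 - 6 = n by omega] at h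
  have h' : ((S (n + 5)).ncard : ℝ) + 2 * (S (n + 3)).ncard + (S n).ncard + (I (n + 6)).ncard
    ≤ (S (n + 6)).ncard + (I (n + 5)).ncard := by exact_mod_cast h
  unfold ss io
  have h2 : (0 : ℝ) < 2 ^ n := by positivity
  have e6 : (2 : ℝ) ^ (n + 6) = 64 * 2 ^ n := by rw [pow_add]; norm_num; ring
  have e5 : (2 : ℝ) ^ (n + 5) = 32 * 2 ^ n := by rw [pow_add]; norm_num; ring
  have e3 : (2 : ℝ) ^ (n + 3) = 8 * 2 ^ n := by rw [pow_add]; norm_num; ring
  rw [e6, e5, e3, le_div_iff₀ (by positivity)]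
  have h3 : (((S (n + 5)).ncard : ℝ) / (32 * 2 ^ n) / 2 + (S (n + 3)).ncard / (8 * 2 ^ n) / 4 +
      (S n).ncard / 2 ^ n / 64 + (I (n + 6)).ncard / (64 * 2 ^ n) - (I (n + 5)).ncard / (32 * 2 ^ n) / 2) *
      (64 * 2 ^ n) = (S (n + 5)).ncard + 2 * (S (n + 3)).ncard + (S n).ncard + (I (n + 6)).ncard
        - (I (n + 5)).ncard := by
    field_simp
    ring
  rw [h3]
  linarith

theorem shift_sum (f : ℕ → ℝ) (a M : ℕ) :
    ∑ n ∈ range M, f (n + a) = ∑ n ∈ range (M + a), f n - ∑ n ∈ range a, f n := by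
  rw [add_comm M a, sum_range_add]
  simp only [add_comm a]
  ring

theorem SS_fam (hF : S_Fam) (M : ℕ) :
    (SS (M + 5) - SS 5) / 2 + (SS (M + 3) - SS 3) / 4 + SS M / 64 + (PI (M + 6) - PI 6)
      - (PI (M + 5) - PI 5) / 2 ≤ SS (M + 6) - SS 6 := by
  have h := sum_le_sum (s := range M) fun n _ => ss_fam hF n
  rw [sum_sub_distrib, sum_add_distrib, sum_add_distrib, sum_add_distrib, ← sum_div, ← sum_div,
    ← sum_div, ← sum_div, shift_sum ss 5, shift_sum ss 3, shift_sum io 6, shift_sum io 5,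
    shift_sum ss 6] at h
  exact h

theorem single_le {f : ℕ → ℝ} {K : ℝ} (h0 : ∀ n, 0 ≤ f n) (h : ∀ N, ∑ n ∈ range N, f n ≤ K) (n : ℕ) :
    f n ≤ K := by
  have h1 := h (n + 1)
  rw [sum_range_succ] at h1
  have h2 : 0 ≤ ∑ n ∈ range n, f n := sum_nonneg fun _ _ => h0 _
  linarith

/-- the main inequality. -/
theorem main_no (hC : S_Cat) (hI : S_Inv) (hT : S_TP) (hZ : S_ZC) (hF : S_Fam) :
    ¬ ∃ n1, ∀ n ≥ n1, ((S n).ncard : ℝ) ≤ 21 / 20 * (O (n + 1)).ncard := by
  rintro ⟨n1, hn1⟩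
  have ht1 : ∀ n, ((T n).ncard : ℝ) / 2 ^ n ≤ 10 :=
    single_le (fun n => by positivity) (fun N => T_sum hC hT N)
  have hz1 : ∀ n, ((Z n).ncard : ℝ) / 2 ^ n ≤ 600 :=
    single_le (fun n => by positivity) (fun N => Z_sum hC hZ N)
  -- pointwise bound for n ≥ n1
  have hup : ∀ n ≥ n1, ss n ≤ 21 / 10 * (io (n + 1) + ((T (n + 1)).ncard : ℝ) / 2 ^ (n + 1)
      + ((Z (n + 1)).ncard : ℝ) / 2 ^ (n + 1)) := by
    intro n hn
    have h1 := hn1 n hn
    have h2 : ((O (n + 1)).ncard : ℝ) ≤ (I (n + 1)).ncard + (T (n + 1)).ncard + (Z (n + 1)).ncard := by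
      exact_mod_cast O_card (n + 1)
    unfold ss io
    rw [div_le_iff₀ (by positivity)]
    have h3 : 21 / 10 * (((I (n + 1)).ncard : ℝ) / 2 ^ (n + 1) + ((T (n + 1)).ncard : ℝ) / 2 ^ (n + 1)
      + ((Z (n + 1)).ncard : ℝ) / 2 ^ (n + 1)) * 2 ^ n = 21 / 20 * ((I (n + 1)).ncard + (T (n + 1)).ncard
        + (Z (n + 1)).ncard) := by
      rw [pow_succ]
      field_simp
      ring
    rw [h3]
    linarith
  set K2 : ℝ := SS n1 + 1284 with hK2
  have hss : ∀ n, ss n ≤ K2 := by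
    intro n
    rcases Nat.lt_or_ge n n1 with h | h
    · have : ss n ≤ SS n1 :=
        single_le_sum (f := ss) (fun i _ => ss_nonneg i) (mem_range.2 h)
      linarith
    · have h1 := hup n h
      have h2 := io_le hC hI (n + 1)
      have h3 := ht1 (n + 1)
      have h4 := hz1 (n + 1)
      have h5 := SS_nonneg n1
      linarith
  have hSup : ∀ N, SS N ≤ SS n1 + 21 / 10 * (PI N + 1 + 10 + 600) := by
    intro N
    have h1 : ∀ n ∈ range N, ss n ≤ (if n < n1 then ss n else 0) +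
        21 / 10 * (io (n + 1) + ((T (n + 1)).ncard : ℝ) / 2 ^ (n + 1)
          + ((Z (n + 1)).ncard : ℝ) / 2 ^ (n + 1)) := by
      intro n _
      split_ifs with h
      · have := io_nonneg (n + 1)
        have h2 : (0 : ℝ) ≤ ((T (n + 1)).ncard : ℝ) / 2 ^ (n + 1) := by positivity
        have h3 : (0 : ℝ) ≤ ((Z (n + 1)).ncard : ℝ) / 2 ^ (n + 1) := by positivity
        linarith
      · have := hup n (not_lt.1 h)
        linarith
    have h2 := sum_le_sum h1
    rw [sum_add_distrib, ← mul_sum, sum_add_distrib, sum_add_distrib] at h2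
    have h3 : ∑ n ∈ range N, (if n < n1 then ss n else 0) ≤ SS n1 := by
      rw [← sum_filter]
      unfold SS
      apply sum_le_sum_of_subset_of_nonneg
      · intro n hn
        rw [mem_filter] at hn
        exact mem_range.2 hn.2
      · intro i _ _
        exact ss_nonneg i
    have h4 : ∑ n ∈ range N, io (n + 1) ≤ PI N + 1 := by
      have := shift_sum io 1 N
      rw [this]
      have h5 : ∑ n ∈ range (N + 1), io n = PI N + io N := by
        unfold PI; rw [sum_range_succ]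
      rw [h5]
      have h6 := io_le hC hI N
      have h7 : 0 ≤ ∑ n ∈ range 1, io n := sum_nonneg fun _ _ => io_nonneg _
      linarith
    have h5 : ∑ n ∈ range N, ((T (n + 1)).ncard : ℝ) / 2 ^ (n + 1) ≤ 10 := by
      have h6 := T_sum hC hT (N + 1)
      rw [sum_range_succ'] at h6
      have h7 : (0 : ℝ) ≤ ((T 0).ncard : ℝ) / 2 ^ 0 := by positivity
      linarith
    have h6 : ∑ n ∈ range N, ((Z (n + 1)).ncard : ℝ) / 2 ^ (n + 1) ≤ 600 := by
      have h6 := Z_sum hC hZ (N + 1)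
      rw [sum_range_succ'] at h6
      have h7 : (0 : ℝ) ≤ ((Z 0).ncard : ℝ) / 2 ^ 0 := by positivity
      linarith
    have h8 : SS N = ∑ n ∈ range N, ss n := rfl
    linarith
  -- lower bound
  have hlow : ∀ M, PI (M + 6) / 2 - 2 * K2 - 6 ≤ 15 / 64 * SS (M + 6) := by
    intro M
    have h := SS_fam hF M
    have e5 : SS (M + 6) = SS (M + 5) + ss (M + 5) := by unfold SS; rw [sum_range_succ]
    have e4 : SS (M + 5) = SS (M + 4) + ss (M + 4) := by unfold SS; rw [sum_range_succ]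
    have e3 : SS (M + 4) = SS (M + 3) + ss (M + 3) := by unfold SS; rw [sum_range_succ]
    have e2 : SS (M + 3) = SS (M + 2) + ss (M + 2) := by unfold SS; rw [sum_range_succ]
    have e1 : SS (M + 2) = SS (M + 1) + ss (M + 1) := by unfold SS; rw [sum_range_succ]
    have e0 : SS (M + 1) = SS M + ss M := by unfold SS; rw [sum_range_succ]
    have b5 := hss (M + 5)
    have b4 := hss (M + 4)
    have b3 := hss (M + 3)
    have b2 := hss (M + 2)
    have b1 := hss (M + 1)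
    have b0 := hss M
    have m1 : SS 5 ≤ SS 6 := SS_mono (by norm_num)
    have m2 : SS 3 ≤ SS 6 := SS_mono (by norm_num)
    have m3 : 0 ≤ SS 6 := SS_nonneg 6
    have m4 : PI 6 ≤ 6 := by
      have : PI 6 ≤ ∑ n ∈ range 6, (1 : ℝ) := sum_le_sum fun n _ => io_le hC hI n
      simpa using this
    have m5 : 0 ≤ PI 5 := sum_nonneg fun n _ => io_nonneg n
    have m6 : PI (M + 5) ≤ PI (M + 6) := PI_mono (by omega)
    have m7 : 0 ≤ K2 := le_trans (ss_nonneg 0) (hss 0)
    linarith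
  obtain ⟨N, hN⟩ := PI_unbounded hC hI
    (128 * (15 / 64 * (SS n1 + 21 / 10 * (1 + 10 + 600)) + 2 * K2 + 6) + 1)
  have h1 := hlow N
  have h2 := hSup (N + 6)
  have h3 : PI N ≤ PI (N + 6) := PI_mono (by omega)
  linarith

end Q165.DA
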