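import Pool.Agent.Q165.DA.Num5

/-! # `|Ω_n^{1,2,3}| ~ |PAv_n|` -/

namespace Q165.DA
open Finset Equiv Filter

/-- the permutations powerfully avoiding 132. -/
def P (n : ℕ) : Set (Perm ℕ) := {π | Supp n π ∧ ∀ t : ℕ, 1 ≤ t → Av (π ^ t)}

theorem finite_P (n : ℕ) : (P n).Finite := (finite_supp n).subset fun _ h => h.1

theorem P_sub_O (n : ℕ) : P n ⊆ O n := by
  rintro π ⟨hs, h⟩
  refine ⟨hs, ?_, ?_, ?_⟩
  · simpa using h 1 le_rfl
  · simpa [pow_two] using h 2 (by norm_num)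
  · simpa [pow_succ] using h 3 (by norm_num)

theorem I_sub_P (n : ℕ) : I n ⊆ P n := by
  rintro π ⟨hs, h, h2⟩
  refine ⟨hs, fun t _ => ?_⟩
  have h3 : π ^ 2 = 1 := by rw [pow_two, h2]
  have h4 : π ^ t = π ^ (t % 2) := by
    conv_lhs => rw [← Nat.div_add_mod t 2, pow_add, pow_mul, h3, one_pow, one_mul]
  rw [h4]
  have : t % 2 = 0 ∨ t % 2 = 1 := by omega
  rcases this with h5 | h5
  · rw [h5, pow_zero]; exact Av.one
  · rw [h5, pow_one]; exact h

theorem T_sub_P (n : ℕ) : T n ⊆ P n := by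
  rintro π ⟨hs, h, h2⟩
  refine ⟨hs, fun t _ => ?_⟩
  have h3 : π ^ 3 = 1 := by rw [pow_succ, pow_two, h2]
  have h4 : π ^ t = π ^ (t % 3) := by
    conv_lhs => rw [← Nat.div_add_mod t 3, pow_add, pow_mul, h3, one_pow, one_mul]
  rw [h4]
  have : t % 3 = 0 ∨ t % 3 = 1 ∨ t % 3 = 2 := by omega
  rcases this with h5 | h5 | h5
  · rw [h5, pow_zero]; exact Av.one
  · rw [h5, pow_one]; exact h
  · rw [h5]
    have : π ^ 2 = π⁻¹ := by
      rw [eq_inv_iff_mul_eq_one, pow_two, h2]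
    rw [this]
    exact h.inv

theorem O_le_P (n : ℕ) : (O n).ncard ≤ (P n).ncard + (Z n).ncard := by
  have hsub : O n ⊆ P n ∪ Z n := by
    rintro π ⟨hs, h1, h2, h3⟩
    by_cases h4 : π * π = 1
    · exact Or.inl (I_sub_P n ⟨hs, h1, h4⟩)
    · by_cases h5 : π * π * π = 1
      · exact Or.inl (T_sub_P n ⟨hs, h1, h5⟩)
      · exact Or.inr ⟨hs, h1, h2, h3, h4, h5⟩
  exact (Set.ncard_le_ncard hsub ((finite_P n).union (finite_Z n))).trans (Set.ncard_union_le _ _)

theorem P_le_O (n : ℕ) : (P n).ncard ≤ (O n).ncard := Set.ncard_le_ncard (P_sub_O n) (finite_O n)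

theorem I_pos (n : ℕ) : 1 ≤ (I n).ncard := by
  rw [Nat.one_le_iff_ne_zero, ← Nat.pos_iff_ne_zero, Set.ncard_pos (finite_I n)]
  exact ⟨1, one_mem_I n⟩

theorem I_ge (hC : S_Cat) (hI : S_Inv) (n : ℕ) : (1 / 5 : ℝ) * (17 / 10) ^ n ≤ ((I n).ncard : ℝ) := by
  induction n using Nat.strong_induction_on with
  | _ n ih =>
    rcases Nat.lt_or_ge n 4 with h | h
    · have h1 : (1 : ℝ) ≤ ((I n).ncard : ℝ) := by exact_mod_cast I_pos n
      refine le_trans ?_ h1
      interval_cases n <;> norm_num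
    · obtain ⟨m, rfl⟩ : ∃ m, n = m + 4 := ⟨n - 4, by omega⟩
      have h1 := hI (m + 3)
      have h2 : (I (m + 3)).ncard + ((I (m + 2)).ncard + (I m).ncard) ≤ (I (m + 4)).ncard := by
        rw [h1]
        gcongr
        have hsub : ({0, 1} : Finset ℕ) ⊆ range ((m + 3 + 1) / 2) := by
          intro j hj
          simp only [mem_insert, mem_singleton] at hj
          rw [mem_range]
          omega
        refine le_trans ?_ (sum_le_sum_of_subset hsub)
        rw [sum_pair (by norm_num), hC 0, hC 1]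
        simp only [catalan_zero, catalan_one, one_mul]
        rw [show m + 3 - 1 - 2 * 0 = m + 2 by omega, show m + 3 - 1 - 2 * 1 = m by omega]
      have h3 : ((I (m + 3)).ncard : ℝ) + ((I (m + 2)).ncard + (I m).ncard) ≤ (I (m + 4)).ncard := by
        exact_mod_cast h2
      have a3 := ih (m + 3) (by omega)
      have a2 := ih (m + 2) (by omega)
      have a0 := ih m (by omega)
      have e : (0 : ℝ) < (17 / 10) ^ m := by positivity
      rw [pow_add] at a3 a2 ⊢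
      norm_num at a3 a2 ⊢
      linarith

theorem P_ge (hC : S_Cat) (hI : S_Inv) (n : ℕ) : (1 / 5 : ℝ) * (17 / 10) ^ n ≤ ((P n).ncard : ℝ) := by
  refine (I_ge hC hI n).trans ?_
  exact_mod_cast Set.ncard_le_ncard (I_sub_P n) (finite_P n)

theorem O_equiv_P (hC : S_Cat) (hI : S_Inv) (hZ : S_ZC) :
    Tendsto (fun n => ((O n).ncard : ℝ) / (P n).ncard) atTop (nhds 1) := by
  have hP : ∀ n, (0 : ℝ) < (P n).ncard := fun n =>
    lt_of_lt_of_le (by positivity) (P_ge hC hI n)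
  have h1 : ∀ n, (1 : ℝ) ≤ ((O n).ncard : ℝ) / (P n).ncard := by
    intro n
    rw [le_div_iff₀ (hP n), one_mul]
    exact_mod_cast P_le_O n
  have h2 : ∀ n, ((O n).ncard : ℝ) / (P n).ncard ≤ 1 + 500 * (33 / 34) ^ n := by
    intro n
    rw [div_le_iff₀ (hP n)]
    have a1 : ((O n).ncard : ℝ) ≤ (P n).ncard + (Z n).ncard := by exact_mod_cast O_le_P n
    have a2 := Z_le hC hZ n
    have a3 := P_ge hC hI n
    have a4 : (100 : ℝ) * (33 / 20) ^ n = 500 * (33 / 34) ^ n * (1 / 5 * (17 / 10) ^ n) := by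
      have : (33 / 20 : ℝ) ^ n = (33 / 34) ^ n * (17 / 10) ^ n := by
        rw [← mul_pow]; norm_num
      rw [this]; ring
    have a5 : 500 * (33 / 34 : ℝ) ^ n * (1 / 5 * (17 / 10) ^ n) ≤ 500 * (33 / 34 : ℝ) ^ n * (P n).ncard := by
      gcongr
    linarith
  have h3 : Tendsto (fun n : ℕ => 1 + 500 * (33 / 34 : ℝ) ^ n) atTop (nhds 1) := by
    have := (tendsto_pow_atTop_nhds_zero_of_lt_one (by norm_num : (0 : ℝ) ≤ 33 / 34)
      (by norm_num)).const_mul 500
    simpa using this.const_add 1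
  exact tendsto_of_tendsto_of_tendsto_of_le_of_le tendsto_const_nhds h3 h1 h2

theorem S_pos (n : ℕ) : 1 ≤ (S n).ncard := by
  rw [Nat.one_le_iff_ne_zero, ← Nat.pos_iff_ne_zero, Set.ncard_pos (finite_S n)]
  exact ⟨1, Supp.one n, Av.one, by simpa using Av.one⟩

/-- if a sequence `x` with `x n ≤ |Ω_n|` satisfies `x (n) / |SAv_(n-1)| → 1` we get a contradiction. -/
theorem no_limit (hC : S_Cat) (hI : S_Inv) (hT : S_TP) (hZ : S_ZC) (hF : S_Fam) (x : ℕ → ℕ)
    (hx : ∀ n, x n ≤ (O n).ncard) :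
    ¬ Tendsto (fun n => (x n : ℝ) / (S (n - 1)).ncard) atTop (nhds 1) := by
  intro h
  apply main_no hC hI hT hZ hF
  have h1 : ∀ᶠ n in atTop, (20 / 21 : ℝ) < (x n : ℝ) / (S (n - 1)).ncard :=
    h.eventually_const_lt (by norm_num)
  rw [eventually_atTop] at h1
  obtain ⟨n1, hn1⟩ := h1
  refine ⟨n1, fun n hn => ?_⟩
  have h2 := hn1 (n + 1) (by omega)
  rw [show n + 1 - 1 = n by omega] at h2
  have h3 : (0 : ℝ) < (S n).ncard := by
    have := S_pos n
    have h4 : (1 : ℝ) ≤ (S n).ncard := by exact_mod_cast this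
    linarith
  rw [lt_div_iff₀ h3] at h2
  have h5 : (x (n + 1) : ℝ) ≤ (O (n + 1)).ncard := by exact_mod_cast hx (n + 1)
  linarith

end Q165.DA
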