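import Pool.Agent.Q165.DA.Defs

/-!
# Project DA (MP_d9ab47_co): statements of the structure lemmas, with proofs in the docstrings

Everything is 0-indexed: a permutation of size `n` acts on positions/values `0, ..., n-1`.
`f = π`, `m = n - 1`.  A pattern 132 is a triple of positions `x < y < z` with
`f x < f z < f y`; I write (x, y, z) is a 132.
All sets are finite (`finite_supp`).  The basic facts `Av.inv`, `Av.last`, `Av.max` are in `Defs`.
-/

namespace Q165.DA
open Equiv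

/-- JOB CAT.  The recursion of the Catalan numbers for 132-avoiding permutations.
Proof: for `π ∈ A (n+1)` let `e = π⁻¹ n` be the position of the maximum.  By `Av.max`
(size `n+1`): positions `p > e` (`p ≤ n`) have values `< n - e`, hence positions `p < e` have values
in `[n-e, n)`.  So `L i = π i - (n-e)` (`i < e`) and `R i = π (e+1+i)` (`i < n-e`) are (with all
other points fixed) elements of `A e` and `A (n-e)`; they and `e` determine `π`.  Conversely every
triple `(e, L, R)` gives an element of `A (n+1)`: `π i = L i + (n-e)` for `i < e`, `π e = n`,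
`π (e+1+i) = R i`, and a 132 in it would lie inside `L` or inside `R`, because the values on the
first `e+1` positions are larger than those on the last `n-e`, and `π e = n` cannot be the `1`, nor
the `2`, and not the `3` (positions after `e` have smaller values than positions before `e`).
Then `catalan_succ` and strong induction. -/
def S_Cat : Prop := ∀ n, (A n).ncard = catalan n

/-- JOB INV.  The recursion for 132-avoiding involutions.
Proof (size `N = n+1`, `m = n`): the elements with `π m = m` are exactly those of `I n`.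
Let `π m = e < m`; then `π e = m`, `π⁻¹ = π`.  Put `r = m - e`.  By `Av.last`: `π p ≤ e ↔ r ≤ p`,
by `Av.max`: `e < p ↔ π p < r` (for `p ≤ m`).  If `r ≤ e` then the first with `p = e` gives
`m = π e ≤ e`, false; so `e < r`.  Hence with `k = e + 1` the blocks `D0 = [0,k)`, `D1 = [k, N-k)`,
`D2 = [N-k, N)` satisfy `π D0 = D2`, `π D1 = D1`, `π D2 = D0`.  Let `X' i = π (N-k+i)` (`i < k`), a
permutation of `[0,k)` with `X' (k-1) = k-1`, so `X' ∈ A (k-1)` (all other points fixed), and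
`σ i = π (k+i) - k` (`i < N-2k`), `σ ∈ I (N-2k)`.  `(k, X', σ)` determines `π` (on `D0`:
`π (X' i) = N-k+i`).  Conversely, for `1 ≤ k ≤ N/2`, `X' ∈ A (k-1)` and `σ ∈ I (N-2k)`
the permutation defined by these formulas is an involution with `π m = k-1 < m`, and it avoids 132:
the three blocks of positions `D0, D1, D2` have values in `D2, D1, D0`, i.e. decreasing blocks, so a
132 lies inside one block, and there the patterns are `X'⁻¹`, `σ`, `X'`.
(`j = k - 1` below.) -/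
def S_Inv : Prop := ∀ n, (I (n + 1)).ncard =
  (I n).ncard + ∑ j ∈ Finset.range ((n + 1) / 2), (A j).ncard * (I (n - 1 - 2 * j)).ncard

/-- JOB FAM.  A lower bound for the strongly avoiding ones.
Proof: `S n` contains the following pairwise disjoint sets.
(0) `S (n-1)` (those with `π (n-1) = n-1`; by `Supp.mono`, `Supp.pred`);
(1) the involutions `π ∈ I n` with `π (n-1) ≠ n-1`, i.e. `I n \ I (n-1)` (`Av 1` holds);
(2) for `σ ∈ S (n-3)`: the permutation `π` with one-line notation `(n-2, σ+1, n-1, 0)`, i.e.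
`π 0 = n-2`, `π (i+1) = σ i + 1` for `i < n-3`, `π (n-2) = n-1`, `π (n-1) = 0`;
then `π²` is `(n-1, σ²+1, 0, n-2)`; both avoid 132 if `σ`, `σ²` do;
here `π (n-1) = 0`, `π⁻¹ (n-1) = n-2`;
(3) the inverses of the permutations in (2): `π (n-1) = n-2`, `π⁻¹ (n-1) = 0` (`Av.inv`);
(4) for `σ ∈ S (n-6)`: `π = (n-4, n-3, σ+2, n-2, n-1, 0, 1)`, i.e. `π 0 = n-4`, `π 1 = n-3`,
`π (i+2) = σ i + 2` for `i < n-6`, `π (n-4) = n-2`, `π (n-3) = n-1`, `π (n-2) = 0`,
`π (n-1) = 1`; `π² = (n-2, n-1, σ²+2, 0, 1, n-4, n-3)`; `π (n-1) = 1`, `π⁻¹ (n-1) = n-3`.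
Disjoint because of the values of `π (n-1)` and `π⁻¹ (n-1)` (for `n ≥ 6` none of (2)-(4) is an
involution, since `π (n-1) ≠ π⁻¹ (n-1)`). -/
def S_Fam : Prop := ∀ n, 6 ≤ n →
  (S (n - 1)).ncard + 2 * (S (n - 3)).ncard + (S (n - 6)).ncard + (I n).ncard
    ≤ (S n).ncard + (I (n - 1)).ncard

/-- JOB F01.  Let `π ∈ S n` with `k₀ = π (n-1) < e = π⁻¹ (n-1)`, `m = n-1`, `r = m - e`.
Then `1 ≤ r ≤ e` and `π²` is increasing on the last `r` positions `e+1, ..., m`.
Proof: `π m ≠ m`, so `e ≠ m`, `1 ≤ r`.  `Av.max`: for `p ≤ m`, `e < p ↔ π p < r`; so `k₀ < r` (`p = m`).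
`r ≤ e`: suppose `e < r`.  Then `p := π⁻¹ e` has `π p = e < r`, so `e < p`, and `p ≠ m` as `k₀ ≠ e`.
`π² p = π e = m`, `π² e = π m = k₀`, `π² m = π k₀ ≥ r > k₀` (because `k₀ < e`), and `π² m ≠ m` (as
`k₀ ≠ e`), so `(e, p, m)` is a 132 of `π²`.  Contradiction.
Increasing: for `e < c < c' ≤ m` we have `π c' < r ≤ e`, so `π² c' ≥ r > k₀ = π² e`; if
`π² c' < π² c` then `(e, c, c')` is a 132 of `π²`. -/
def S_F01 : Prop := ∀ n π, π ∈ S n → π (n - 1) < π⁻¹ (n - 1) →
  1 ≤ n - 1 - π⁻¹ (n - 1) ∧ n - 1 - π⁻¹ (n - 1) ≤ π⁻¹ (n - 1) ∧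
  ∀ c c', π⁻¹ (n - 1) < c → c < c' → c' < n → π (π c) < π (π c')

/-- JOB ZA.  `π ∈ S n` with `π (n-1) = π⁻¹ (n-1) = e`, `e ≠ n-1`, is an involution.
Proof: `m = n-1`, `r = m - e`.  As in INV (`Av.last`, `Av.max`): `π p ≤ e ↔ r ≤ p` and
`e < p ↔ π p < r` for `p ≤ m`, so `e < r` (otherwise `p = e` in the first gives `m ≤ e`).
So `π` maps `D0 = [0,e]` to `D2 = [r,m]`, `D1 = (e,r)` to itself and `D2` to `D0`; `π²` preserves
`D0, D1, D2`.  `Av π²` with first position `0` (value in `D0`): for `e < p < q ≤ m` we have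
`π² p < π² q`, otherwise `(0, p, q)` is a 132 of `π²`.  So `π²` is an increasing map of `(e, m]`
onto itself, i.e. the identity there.  For `p ≤ e`: `π p ∈ D2`, so `π² (π p) = π p`, so `π² p = p`. -/
def S_ZA : Prop := ∀ n π, π ∈ S n → π (n - 1) = π⁻¹ (n - 1) → π (n - 1) ≠ n - 1 → π * π = 1

/-- JOB ZB (the main structure lemma).  You may use `S_F01` as a hypothesis (job F01).
Let `f = π ∈ S n`, `m = n-1`, `k₀ = f m < e = f⁻¹ m`, `r = m - e`.
By F01: `1 ≤ r ≤ e`, and `f²` is increasing on `C = (e, m]`.  By `Av.max`: for `p ≤ m`,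
`p ∈ C ↔ f p ∈ A := [0,r)`.  So `f p ≥ r` for `p ≤ e`.
`B' := f A = f² C ⊂ [r, n)`, `b0 := min B' = f² (e+1)`, `max B' = f² m = f k₀`.  `m ∉ B'` (as
`f⁻¹ m = e ≥ r`).
(F2) If `r ≤ p < p' ≤ e` and `f p, f p' > b0` then `f p < f p'` (else `(f⁻¹ b0, p, p')` is a 132 of `f`).
(F3) If `p < p' ≤ e` and `b ∈ B'` then not (`f² p < b < f² p'`) (`b = f² c`, `c ∈ C`: `(p, p', c)`).
(F4) Put `q = n - r - b0` (the number of values `> b0` outside `B'`).  By (F3) with `b = b0`, for
`p ≤ e`: `f² p > b0 ↔ p < q`.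
Call a position `p ∈ [r,e]` V-type if `f p > b0`, else W-type (then `r ≤ f p < b0`).  For `p ≤ e`:
`p < q ↔ (f p ∈ [r,e] and f p is V-type)` [if `f² p > b0` then `f² p ∉ B' = f² C`, so `f p ∉ A`, and
`f p ∉ C` because `f C = A` is below `b0`].  There are exactly `q` V-type positions, they are the
`f p`, `p < q`.  `e` is V-type.
Case 1: `q < r`.  Then the V-type positions are `f p` with `p < q < r`, so they are in `B'`, in
particular `≥ b0`, and `b0 ≤ e`.
 Claim `b0 = r`.  Suppose `b0 > r`.  All positions in `[r,b0)` are W-type, so `f` maps `[r,b0)` into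
 (hence onto) itself, and all positions of `[b0,e]` are V-type, so they are `f p`, `p < q`, and
 `f p > e` for `q ≤ p < r`.  These `f p` (`q ≤ p < r`) are in `C`, so `f² p < r`.
 As `f² : C → B'` is increasing and `f [0,q) = [b0,e]` are the `q` smallest elements of `B'`,
 the last element `m` of `C` has `f m = k₀ ≥ q`.  The `r - q` values `f² p`, `q ≤ p < r`, are distinct
 and `< r`, different from `k₀ = f² e`; there are only `r-1-k₀ < r-q` numbers in `(k₀, r)`, so some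
 `p ∈ [q,r)` has `f² p < k₀`.  Then `(p, r, e)` is a 132 of `f²`: `f² p < f² e = k₀ < r ≤ f² r`
 (`f² r ∈ [r,b0)`), `p < r < e`.  Contradiction.
 So `b0 = r`, `q = n - 2r`, all positions of `[r,e]` are V-type, hence in `B'`.
 For `q ≤ p ≤ e`: `f p > e` (for `q ≤ p < r` because `f p` is not a V-type position and not `< r`; for
 `r ≤ p ≤ e` because `f p ∉ B' ⊇ [r,e]`).  `f 0 ∈ [r,e]` (`q ≥ 1`).  So `f` is increasing on `[q,e]`
 (else `(0, p, p')` is a 132), and maps `[q,e]` onto `(e,m]` (both have `r` elements), so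
 `f p = p + r` on `[q,e]`.  Moreover `B' = f [0,r) = [r,2r)` (complement of the other values), and
 `f²` increasing on `C` gives `f² (n-r+i) = r + i`.
Case 2: `q ≥ r`.  Then `B' = f [0,r)` consists of V-type positions; `B' ⊂ [r,e]`.
 Case 2a: `e ∈ B'`, so `e = max B' = f² m`.  (F3) with `b = e`: the positions `p ≤ e` with `f² p > e`
 come first; there are `r` of them (the values `> e` of `f²` are not in `B' = f² C`), so `f² p > e` for
 `p < r`.  So `f³` maps `C` into `C`, and it is increasing there (`f² : C → B'` is increasing and `f` is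
 increasing on `B'` by (F2), as `B'` consists of V-type positions), so `f³` is the identity on `C`;
 `0 = f c` with `c ∈ C`, so `f³ 0 = f (f³ c) = f c = 0`.
 Case 2b: `e ∉ B'`.  `e` is V-type, so `e = f s` with `s < q`, and `s ≥ r` since `e ∉ B'`.  So `s` is
 V-type (`f s = e > b0`).
 Claim: every `v ∈ (b0, e]` is a V-type position.  If `v ∈ B'` ok.  If `v ∉ B'` and `v` is W-type:
 `v = f p`, `p ≥ r` and `p ≤ e` and `f p = v > b0`, so `p` is V-type, and `p ≥ q` since `f p` is not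
 V-type; `s < p`, by (F2) `e = f s < f p = v`, contradiction.
 So W-type positions are in `[r, b0)`, so `f⁻¹` maps `[r,b0)` into itself, so `f` maps `[r,b0)` onto
 itself.  If `b0 > r`: position `r ≤ s < q`, so `f r` is V-type and in `[r,b0)`; but all of `[r,b0)` is
 mapped by `f` into `[r,b0)`, i.e. W-type.  Contradiction.  So `b0 = r`, all of `[r,e]` is V-type, `f`
 is increasing on `[r,e]`, `q = n - 2r`.  `f (q-1) ∈ [r,e]` and `f (q-1) ≥ f s = e`, so `f (q-1) = e`,
 `f² (q-1) = m`.  If `v < b`, `b ∈ B'`, `v > r`, `v ∉ B'`: `v = f² p` with `p < q`, `p ≠ q-1`, so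
 `(p, q-1, c)` with `f² c = b` is a 132 of `f²` (`v < b < m`).  So `B' = [r,2r)`, and `f` maps `[r,e]`
 increasingly onto `[2r, n)`: `f p = p + r`.  `f²` increasing on `C`: `f² (n-r+i) = r+i`. -/
def S_ZB : Prop := ∀ n π, π ∈ S n → π (n - 1) < π⁻¹ (n - 1) →
  π (π (π 0)) = 0 ∨
  ∀ r, r = n - 1 - π⁻¹ (n - 1) →
    (∀ p, min r (n - 2 * r) ≤ p → p ≤ π⁻¹ (n - 1) → π p = p + r) ∧
    ∀ i, i < r → π (π (n - r + i)) = r + i

/-- JOB ZC.  Prove `S_F01 → S_ZA → S_ZB → S_ZC`.
Proof: (1) if `τ` avoids 132, `Supp n τ` and `τ 0 = 0` then `τ = 1` (for `0 < p < q`: `τ p < τ q`,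
else `(0,p,q)` is a 132; increasing and fixing all large points, so the identity).
(2) Let `π ∈ Z n`.  If `π (n-1) = n-1` then `π ∈ Z (n-1)`.  Otherwise `π (n-1) ≠ π⁻¹ (n-1)` by ZA
(`Z n ⊂ S n`).  By passing to `π⁻¹` (which is in `Z n`, too: `(π⁻¹)² = (π²)⁻¹` etc.; this exchanges
`π (n-1)` and `π⁻¹ (n-1)`) it suffices to show that the number of `π ∈ Z n` with
`π (n-1) < π⁻¹ (n-1)` is at most the sum.  For such `π`, `π³ 0 ≠ 0` by (1), so ZB gives with
`e = π⁻¹ (n-1)`, `r = n-1-e` (`1 ≤ r ≤ (n-1)/2` by F01), `μ = min r (n-2r)`: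
`π p = p + r` for `μ ≤ p ≤ e` and `π² (n-r+i) = r+i` for `i < r`.
For `μ ≤ i < r`: `π (π (n-r+i)) = r+i = π i`, so `π (n-r+i) = i`.  By `Av.max`, `π (n-r+i) < r` for `i < r`;
so `X i := π (n-r+i)` maps `[0,μ)` onto itself; with all other points fixed `X ∈ A μ`.
`(r, X)` determines `π`: on `[n-r,n)`: `X i` or `i`; on `[μ, e]`: `p + r`; for `p < μ`: `p = X i`, `i < μ`,
and `π p = π (π (n-r+i)) = r + i`.  So for each `r` the number is at most `(A μ).ncard`. -/
def S_ZC : Prop := ∀ n, 1 ≤ n → (Z n).ncard ≤ (Z (n - 1)).ncard +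
  2 * ∑ r ∈ Finset.Icc 1 ((n - 1) / 2), (A (min r (n - 2 * r))).ncard

/-- JOB TP (the structure of 132-avoiding permutations with `π³ = 1`).  You may use `S_F01`.
Let `f = π ∈ Tp n` (`n ≥ 1`), `m = n-1`, `k₀ = f m < e = f⁻¹ m`, `k = k₀+1`, `r = m-e`.
`T n ⊂ S n` because `f² = f⁻¹`.  By F01 `1 ≤ r ≤ e` and `f⁻¹` is increasing on `(e, m]`.  `Av.max`: `e < p ↔ f p < r`
(so `k ≤ r`), `Av.last`: `f p < k ↔ n-k ≤ p` (`p ≤ m`).  So `C1 = [n-k,n)`, `f C1 = A1 = [0,k)`.
`B1 := f A1 = f⁻¹ C1`, `max B1 = f⁻¹ m = e = f k₀`; `f` is increasing on `B1`.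
`B1 = [e-k+1, e]`: if `b < p < e`, `b ∈ B1`, `p ∉ B1`: `b = f a`, `a < k₀`, `p = f s`, `s ≥ k`; then
`(a, k₀, s)` is a 132 (`b < p < e`).  `A1, B1, C1` are disjoint (`k ≤ r ≤ e`, `C1 ⊂ (e,m]`).
So `f (e-k+1+i) = n-k+i` (`i<k`), `X' i := f (n-k+i)` is a permutation of `[0,k)`, `X' k₀ = k₀`, so
`X' ∈ A (k-1)`; `f (X' i) = e-k+1+i`.
`M1 = [k, e-k+1) ∪ [e+1, n-k)` is mapped to itself.  Let `c = e+1-2k`, `N = n-3k`,
`φ x = x + k` for `x < c`, `φ x = x + 2k` for `c ≤ x < N`, and `σ = φ⁻¹ f φ ∈ T N`.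
(a) `c = N` or `c` is a cut of `σ`.  If `c < N`: `c ≥ 1`, since otherwise `e = 2k-1` and `(0, e, 2k)` is a
132 (`f 0 ∈ B1 = [k,2k)`, `f (2k) ∈ M1`, `f (2k) ≥ 2k`).  For `p < c ≤ q < N`: if `f (φ p) < f (φ q)` then
`(φ p, e, φ q)` is a 132.
(b) If `c < N` then `σ` is of plus type: for positions `p < p'` of `σ` with `σ p, σ p' ≥ c` we have
`σ p < σ p'` (else `(0, φ p, φ p')` is a 132 of `f`, since `f 0 ≤ e < f (φ p')`).  Let `j' = σ (N-1)`,
`e' = σ⁻¹ (N-1)`.  `j' ≠ N-1` since `c` is a cut.  `j' ≠ e'` (otherwise `σ² (N-1) = N-1` and `σ³ = 1` give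
`σ (N-1) = N-1`).  Suppose `j' > e'`.  `j' < c` (else `e' < N-1` with values `N-1 > j' ≥ c`).  The cut `c`
means: positions `≥ c` have values `< N-c`, positions `< c` have values `≥ N-c`.  So `σ j' ≥ N-c`, and
`σ j' = σ² (N-1) = σ⁻¹ (N-1) = e'`, and `j' = σ (N-1) < N-c ≤ e'`.  Contradiction.
(c) `st n π = 1 + #{cuts c'' of σ with c'' ≥ c}` (`= 1` if `c = N`).  A cut `c*` of `π` has `c* > e`
(the maximum is before the cut).  `c* ≤ n-k` (if `c* > n-k` then `π (n-k) > π m = k-1` fails).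
`c* = n-k` is a cut.  For `e+1 ≤ c* < n-k`, put `c'' = c + (c*-e-1)`; `c*` is a cut of `π` iff `c''` is a cut
of `σ` and `σ q < c` for `c'' ≤ q < N` (comparison with the values `B1` of the positions `A1`; the
positions `B1` have the largest, `C1` the smallest values).  If `c'' ≥ c` is a cut of `σ`, then the second
condition holds: `σ q < N-c'' ≤ N-c ≤ r' ≤ e' < c` with `e' = σ⁻¹ (N-1) < c`, `r' = N-1-e'` and F01 for `σ`.
So `st n π ≤ st N σ + 1`, and for given `(k, X', σ)` different `c` give different `st n π`.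
Hence for fixed `i` the map `π ↦ (k, X', σ)` is injective on `{π ∈ Tp n | st n π = i}`, with values in
`1 ≤ k ≤ n/3`, `X' ∈ A (k-1)`, `σ ∈ T (n-3k)`, `i ≤ st (n-3k) σ + 1`.  (In fact it is a bijection.) -/
def S_TP : Prop := ∀ n i, 1 ≤ n → {π | π ∈ Tp n ∧ st n π = i}.ncard ≤
  ∑ k ∈ Finset.Icc 1 (n / 3),
    (A (k - 1)).ncard * {σ | σ ∈ T (n - 3 * k) ∧ i ≤ st (n - 3 * k) σ + 1}.ncard

end Q165.DA
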