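import Pool.Agent.Q102.DA.ZB
import Pool.Agent.Q165.DA.ZCcopy

/-!
# Project DA, job TP: the structure of the 132-avoiding permutations of order three
-/

namespace Q165.DA.TP3
open Equiv
open ZB (mono_eq)
open ZC3 (toP toP_apply bij av_of_lt)

/-- the data of the situation. -/
structure Dat (n e r k : ℕ) (f : Perm ℕ) : Prop where
  hs : Supp n f
  ha : Av f
  h3 : ∀ x, f (f (f x)) = x
  hn : n = e + r + 1
  hr1 : 1 ≤ r
  hre : r ≤ e
  hfe : f e = e + r
  hk1 : 1 ≤ k
  hkm : f (e + r) = k - 1
  hmax : ∀ p, p < n → (e < p ↔ f p < r)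
  hlast : ∀ p, p < n → (f p < k ↔ n - k ≤ p)
  hinc : ∀ c c', e < c → c < c' → c' < n → f (f c) < f (f c')

variable {n e r k : ℕ} {f : Perm ℕ}

theorem Dat.lt (D : Dat n e r k f) {p : ℕ} (hp : p < n) : f p < n := (D.hs.lt_iff p).2 hp

theorem Dat.kr (D : Dat n e r k f) : k ≤ r := by
  have := D.hn
  have := D.hr1
  have h := (D.hmax (e + r) (by omega)).1 (by omega)
  rw [D.hkm] at h
  omega

theorem Dat.fk (D : Dat n e r k f) : f (k - 1) = e := by
  rw [← D.hkm, ← D.hfe, D.h3]

theorem Dat.L4 (D : Dat n e r k f) (i : ℕ) (hi : i < k) :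
    f (f (n - k + i)) = e + 1 - k + i := by
  have hn := D.hn
  have hkr := D.kr
  have hre := D.hre
  refine mono_eq (g := fun x => f (f x)) (a := n - k) (b := e + 1 - k) (L := k) ?_ ?_ ?_ i hi
  · intro i j hij hj
    exact D.hinc _ _ (by omega) (by omega) (by omega)
  · intro i hi
    by_contra hc
    -- all of `[b, e]` is in `f [0, k)`
    have ha : f (n - k + i) < k := (D.hlast _ (by omega)).2 (by omega)
    have hbe : f (f (n - k + i)) < e := by
      change ¬ (e + 1 - k ≤ f (f (n - k + i))) at hc
      omega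
    have hsub : Finset.Icc (f (f (n - k + i))) e ⊆ (Finset.range k).image f := by
      intro p hp
      rw [Finset.mem_Icc] at hp
      rw [Finset.mem_image]
      by_contra hno
      have hno' : ∀ s, s < k → f s ≠ p := fun s hs h => hno ⟨s, Finset.mem_range.2 hs, h⟩
      obtain ⟨s, rfl⟩ := f.surjective p
      have hsk : k ≤ s := by
        by_contra h
        exact hno' s (by omega) rfl
      have h1 := hno' _ ha
      have h2 := hno' (k - 1) (by omega)
      rw [D.fk] at h2
      have h4 : f (n - k + i) ≠ k - 1 := by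
        intro h
        rw [h, D.fk] at hbe
        omega
      refine D.ha (f (n - k + i)) (k - 1) s (by omega) (by omega) (by omega) ?_
      rw [D.fk]
      omega
    have h1 := Finset.card_le_card hsub
    rw [Finset.card_image_of_injective _ f.injective, Nat.card_Icc, Finset.card_range] at h1
    change ¬ (e + 1 - k ≤ f (f (n - k + i))) at hc
    omega
  · intro i hi
    rcases Nat.lt_or_ge (n - k + i) (e + r) with h | h
    · have := D.hinc (n - k + i) (e + r) (by omega) h (by omega)
      rw [D.hkm, D.fk] at this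
      omega
    · have : n - k + i = e + r := by omega
      rw [this, D.hkm, D.fk]
      omega

theorem Dat.L5 (D : Dat n e r k f) (i : ℕ) (hi : i < k) :
    f (e + 1 - k + i) = n - k + i := by
  rw [← D.L4 i hi, D.h3]

theorem Dat.L7 (D : Dat n e r k f) {p : ℕ} (hp : p < k) : e + 1 - k ≤ f p ∧ f p ≤ e := by
  have hn := D.hn
  have hkr := D.kr
  have hre := D.hre
  obtain ⟨c, hc⟩ := f.surjective p
  have hcn : c < n := by
    by_contra h
    have := D.hs c (by omega)
    omega
  have h1 := (D.hlast c hcn).1 (by omega)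
  have h2 := D.L4 (c - (n - k)) (by omega)
  have e1 : n - k + (c - (n - k)) = c := by omega
  rw [e1, hc] at h2
  omega

theorem Dat.L6 (D : Dat n e r k f) : 2 * k ≤ e + 1 := by
  have hn := D.hn
  have hkr := D.kr
  have hre := D.hre
  by_contra hc
  have h1 := D.L5 0 D.hk1
  have h2 := D.L7 (p := e + 1 - k) (by omega)
  rw [add_zero, add_zero] at h1
  omega

/-- the middle part. -/
def M (n e k p : ℕ) : Prop := (k ≤ p ∧ p < e + 1 - k) ∨ (e + 1 ≤ p ∧ p < n - k)

theorem Dat.L8 (D : Dat n e r k f) {p : ℕ} (hp : M n e k p) : M n e k (f p) := by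
  have hn := D.hn
  have hkr := D.kr
  have hre := D.hre
  have h6 := D.L6
  have hk1 := D.hk1
  unfold M at *
  have hpn : p < n := by omega
  have h1 : k ≤ f p := by
    by_contra hc
    have := (D.hlast p hpn).1 (by omega)
    omega
  have h2 : f p < n - k := by
    by_contra hc
    have h3 := D.lt hpn
    have h4 := D.L5 (f p - (n - k)) (by omega)
    have e1 : n - k + (f p - (n - k)) = f p := by omega
    rw [e1] at h4
    have := f.injective h4
    omega
  have h3 : ¬ (e + 1 - k ≤ f p ∧ f p ≤ e) := by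
    rintro ⟨h3, h4⟩
    have h5 := D.L4 (f p - (e + 1 - k)) (by omega)
    have e1 : e + 1 - k + (f p - (e + 1 - k)) = f p := by omega
    rw [e1] at h5
    have h6 := f.injective h5
    have := (D.hlast (n - k + (f p - (e + 1 - k))) (by omega)).2 (by omega)
    omega
  omega

/-- the increasing bijection of `[0, n - 3 k)` onto the middle part. -/
def phi (e k x : ℕ) : ℕ := if x < e + 1 - 2 * k then x + k else x + 2 * k

/-- its inverse. -/
def psi (e k y : ℕ) : ℕ := if y < e + 1 - k then y - k else y - 2 * k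

theorem phi_lt {x y : ℕ} (h : x < y) : phi e k x < phi e k y := by
  unfold phi
  split_ifs <;> omega

theorem lt_of_phi {x y : ℕ} (h : phi e k x < phi e k y) : x < y := by
  by_contra hc
  rcases Nat.lt_or_ge y x with h1 | h1
  · have := phi_lt (e := e) (k := k) h1
    omega
  · have : x = y := by omega
    rw [this] at h
    omega

theorem phi_inj {x y : ℕ} (h : phi e k x = phi e k y) : x = y := by
  rcases Nat.lt_trichotomy x y with h1 | h1 | h1
  · have := phi_lt (e := e) (k := k) h1
    omega
  · exact h1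
  · have := phi_lt (e := e) (k := k) h1
    omega

theorem Dat.phi_M (D : Dat n e r k f) {x : ℕ} (hx : x < n - 3 * k) : M n e k (phi e k x) := by
  have hn := D.hn
  have hkr := D.kr
  have hre := D.hre
  have h6 := D.L6
  unfold M phi
  split_ifs <;> omega

theorem Dat.phi_psi (D : Dat n e r k f) {y : ℕ} (hy : M n e k y) : phi e k (psi e k y) = y := by
  have hn := D.hn
  have hkr := D.kr
  have hre := D.hre
  have h6 := D.L6
  unfold M at hy
  unfold phi psi
  split_ifs <;> omega

theorem Dat.psi_lt (D : Dat n e r k f) {y : ℕ} (hy : M n e k y) : psi e k y < n - 3 * k := by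
  have hn := D.hn
  have hkr := D.kr
  have hre := D.hre
  have h6 := D.L6
  unfold M at hy
  unfold psi
  split_ifs <;> omega

/-- the function underlying `σ`. -/
def gs (n e k : ℕ) (f : Perm ℕ) (x : ℕ) : ℕ := if x < n - 3 * k then psi e k (f (phi e k x)) else x

/-- the function underlying `X'`. -/
def gx (n k : ℕ) (f : Perm ℕ) (i : ℕ) : ℕ := if i < k then f (n - k + i) else i

theorem Dat.gs_phi (D : Dat n e r k f) {x : ℕ} (hx : x < n - 3 * k) :
    phi e k (gs n e k f x) = f (phi e k x) := by
  unfold gs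
  rw [if_pos hx]
  exact D.phi_psi (D.L8 (D.phi_M hx))

theorem Dat.gs_lt (D : Dat n e r k f) {x : ℕ} (hx : x < n - 3 * k) :
    gs n e k f x < n - 3 * k := by
  unfold gs
  rw [if_pos hx]
  exact D.psi_lt (D.L8 (D.phi_M hx))

theorem gs_ge {x : ℕ} (hx : n - 3 * k ≤ x) : gs n e k f x = x := by
  unfold gs
  rw [if_neg (by omega)]

theorem Dat.gs_bij (D : Dat n e r k f) : Function.Bijective (gs n e k f) := by
  apply bij (μ := n - 3 * k)
  · intro i j hij
    rcases Nat.lt_or_ge i (n - 3 * k) with h1 | h1 <;>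
      rcases Nat.lt_or_ge j (n - 3 * k) with h2 | h2
    · have h3 := D.gs_phi h1
      rw [hij, D.gs_phi h2] at h3
      exact (phi_inj (f.injective h3)).symm
    · have := D.gs_lt h1
      rw [hij, gs_ge h2] at this
      omega
    · have := D.gs_lt h2
      rw [← hij, gs_ge h1] at this
      omega
    · rwa [gs_ge h1, gs_ge h2] at hij
  · intro x hx
    exact gs_ge hx

theorem Dat.gx_bij (D : Dat n e r k f) : Function.Bijective (gx n k f) := by
  have hn := D.hn
  have hkr := D.kr
  have hre := D.hre
  have hk1 := D.hk1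
  have hlt : ∀ i, i < k → f (n - k + i) < k := fun i hi => (D.hlast _ (by omega)).2 (by omega)
  apply bij (μ := k)
  · intro i j hij
    unfold gx at hij
    split_ifs at hij with h1 h2 h2
    · have := f.injective hij
      omega
    · have := hlt i h1
      omega
    · have := hlt j h2
      omega
    · exact hij
  · intro x hx
    unfold gx
    rw [if_neg (by omega)]

theorem Dat.X_mem (D : Dat n e r k f) : toP (gx n k f) ∈ A (k - 1) := by
  have hb := D.gx_bij
  have hn := D.hn
  have hkr := D.kr
  have hre := D.hre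
  have hk1 := D.hk1
  have hs : Supp (k - 1) (toP (gx n k f)) := by
    intro x hx
    rw [toP_apply hb]
    unfold gx
    split_ifs with h
    · have e1 : n - k + x = e + r := by omega
      rw [e1, D.hkm]
      omega
    · rfl
  refine ⟨hs, av_of_lt hs ?_⟩
  intro i j l hij hjl hl h1 h2
  rw [toP_apply hb, toP_apply hb] at h1 h2
  unfold gx at h1 h2
  rw [if_pos (by omega), if_pos (by omega)] at h1
  rw [if_pos (by omega), if_pos (by omega)] at h2
  exact D.ha _ _ _ (by omega) (by omega) h1 h2

theorem Dat.sig_phi (D : Dat n e r k f) {x : ℕ} (hx : x < n - 3 * k) :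
    phi e k (toP (gs n e k f) x) = f (phi e k x) := by
  rw [toP_apply D.gs_bij, D.gs_phi hx]

theorem Dat.sig_supp (D : Dat n e r k f) : Supp (n - 3 * k) (toP (gs n e k f)) := by
  intro x hx
  rw [toP_apply D.gs_bij, gs_ge hx]

theorem Dat.sig_mem (D : Dat n e r k f) : toP (gs n e k f) ∈ T (n - 3 * k) := by
  have hs := D.sig_supp
  refine ⟨hs, av_of_lt hs ?_, ?_⟩
  · intro i j l hij hjl hl h1 h2
    have h3 := phi_lt (e := e) (k := k) h1
    have h4 := phi_lt (e := e) (k := k) h2
    rw [D.sig_phi (by omega), D.sig_phi (by omega)] at h3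
    rw [D.sig_phi (by omega), D.sig_phi (by omega)] at h4
    exact D.ha _ _ _ (phi_lt hij) (phi_lt hjl) h3 h4
  · ext x
    simp only [Perm.mul_apply, Perm.one_apply]
    rcases Nat.lt_or_ge x (n - 3 * k) with h | h
    · apply phi_inj (e := e) (k := k)
      rw [D.sig_phi ((hs.lt_iff _).2 ((hs.lt_iff _).2 h)), D.sig_phi ((hs.lt_iff _).2 h),
        D.sig_phi h, D.h3]
    · rw [hs x h, hs x h, hs x h]

/-- a cut: the values after the cut. -/
theorem cut_lt {N c : ℕ} {σ : Perm ℕ} (hs : Supp N σ) (hc : IsCut N σ c) {q : ℕ} (h1 : c ≤ q)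
    (h2 : q < N) : σ q < N - c := by
  obtain ⟨c1, c2, c3⟩ := hc
  by_contra hno
  have hsub : (Finset.range c).image σ ⊆ Finset.Ioo (σ q) N := by
    intro z hz
    obtain ⟨p, hp, rfl⟩ := Finset.mem_image.1 hz
    rw [Finset.mem_range] at hp
    rw [Finset.mem_Ioo]
    exact ⟨c3 p q hp h1 h2, (hs.lt_iff _).2 (by omega)⟩
  have h3 := Finset.card_le_card hsub
  rw [Finset.card_image_of_injective _ σ.injective, Finset.card_range, Nat.card_Ioo] at h3
  have := (hs.lt_iff q).2 h2
  omega

/-- a cut: the values before the cut. -/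
theorem cut_ge {N c : ℕ} {σ : Perm ℕ} (hc : IsCut N σ c) {p : ℕ} (h1 : p < c) :
    N - c ≤ σ p := by
  obtain ⟨c1, c2, c3⟩ := hc
  have hsub : (Finset.Ico c N).image σ ⊆ Finset.range (σ p) := by
    intro z hz
    obtain ⟨q, hq, rfl⟩ := Finset.mem_image.1 hz
    rw [Finset.mem_Ico] at hq
    rw [Finset.mem_range]
    exact c3 p q h1 hq.1 hq.2
  have h3 := Finset.card_le_card hsub
  rwa [Finset.card_image_of_injective _ σ.injective, Finset.card_range, Nat.card_Ico] at h3

theorem Dat.cut_c (D : Dat n e r k f) (hcN : e + 1 - 2 * k < n - 3 * k) :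
    IsCut (n - 3 * k) (toP (gs n e k f)) (e + 1 - 2 * k) := by
  have hn := D.hn
  have hkr := D.kr
  have hre := D.hre
  have h6 := D.L6
  have hk1 := D.hk1
  refine ⟨?_, hcN, ?_⟩
  · by_contra hc
    have h1 := D.L7 (p := 0) hk1
    have h2 := D.L8 (p := e + 1) (Or.inr ⟨le_rfl, by omega⟩)
    unfold M at h2
    refine D.ha 0 e (e + 1) (by omega) (by omega) (by omega) ?_
    rw [D.hfe]
    omega
  · intro p q hp hq hqN
    apply lt_of_phi (e := e) (k := k)
    rw [D.sig_phi hqN, D.sig_phi (by omega)]
    have hM := D.L8 (D.phi_M hqN)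
    unfold M at hM
    by_contra hc
    have hlt := phi_lt (e := e) (k := k) (x := p) (y := q) (by omega)
    have hne : f (phi e k p) ≠ f (phi e k q) := by
      intro h
      have := f.injective h
      omega
    have e1 : phi e k p = p + k := by
      unfold phi
      rw [if_pos hp]
    have e2 : phi e k q = q + 2 * k := by
      unfold phi
      rw [if_neg (by omega)]
    refine D.ha (phi e k p) e (phi e k q) (by omega) (by omega) (by omega) ?_
    rw [D.hfe]
    omega

theorem Dat.mono_c (D : Dat n e r k f) {p p' : ℕ} (hpp : p < p') (hp' : p' < n - 3 * k)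
    (h1 : e + 1 - 2 * k ≤ toP (gs n e k f) p') :
    toP (gs n e k f) p < toP (gs n e k f) p' := by
  have hn := D.hn
  have hkr := D.kr
  have hre := D.hre
  have h6 := D.L6
  have hk1 := D.hk1
  apply lt_of_phi (e := e) (k := k)
  have h2 : phi e k (toP (gs n e k f) p') = toP (gs n e k f) p' + 2 * k := by
    unfold phi
    rw [if_neg (by omega)]
  have h3 := D.sig_phi hp'
  rw [D.sig_phi (by omega : p < n - 3 * k), D.sig_phi hp']
  have hlt := phi_lt (e := e) (k := k) hpp
  by_contra hc
  have hne : f (phi e k p) ≠ f (phi e k p') := by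
    intro h
    have := f.injective h
    omega
  have h0 := D.L7 (p := 0) hk1
  have hpos : 0 < phi e k p := by
    unfold phi
    split_ifs <;> omega
  exact D.ha 0 (phi e k p) (phi e k p') hpos hlt (by omega) (by omega)

theorem Dat.plus (D : Dat n e r k f) (hcN : e + 1 - 2 * k < n - 3 * k) :
    toP (gs n e k f) (n - 3 * k - 1) < (toP (gs n e k f))⁻¹ (n - 3 * k - 1) := by
  have hcut := D.cut_c hcN
  have hs := D.sig_supp
  have hT := D.sig_mem
  have hmono := fun p p' h1 h2 h3 => D.mono_c (p := p) (p' := p') h1 h2 h3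
  have h3 : ∀ x, toP (gs n e k f) (toP (gs n e k f) (toP (gs n e k f) x)) = x := by
    intro x
    exact DFunLike.congr_fun hT.2.2 x
  generalize toP (gs n e k f) = σ at *
  generalize hNN : n - 3 * k = N at *
  generalize hcc : e + 1 - 2 * k = c at *
  have hc1 := hcut.1
  have e1 : σ (σ⁻¹ (N - 1)) = N - 1 := σ.apply_symm_apply _
  have hj : σ (N - 1) < N := (hs.lt_iff _).2 (by omega)
  have he : σ⁻¹ (N - 1) < N := (hs.inv.lt_iff _).2 (by omega)
  have hj1 : σ (N - 1) < N - c := cut_lt hs hcut (by omega) (by omega)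
  have hinv : σ⁻¹ (N - 1) = σ (σ (N - 1)) := by
    rw [Perm.inv_eq_iff_eq, h3]
  rw [hinv] at e1 he ⊢
  have hjne : σ (N - 1) ≠ σ (σ (N - 1)) := by
    intro h
    have := σ.injective h
    omega
  by_contra hc
  have hjc : σ (N - 1) < c := by
    by_contra hc'
    rcases Nat.lt_or_ge (σ (σ (N - 1))) (N - 1) with h | h
    · have := hmono _ _ h (by omega) (by omega)
      omega
    · omega
  have h4 := cut_ge hcut hjc
  omega

theorem Dat.second (D : Dat n e r k f) (hF : S_F01) (hcN : e + 1 - 2 * k < n - 3 * k) {c'' : ℕ}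
    (h1 : e + 1 - 2 * k ≤ c'') (h2 : IsCut (n - 3 * k) (toP (gs n e k f)) c'') {q : ℕ}
    (h3 : c'' ≤ q) (h4 : q < n - 3 * k) : toP (gs n e k f) q < e + 1 - 2 * k := by
  have hcut := D.cut_c hcN
  have hs := D.sig_supp
  have hT := D.sig_mem
  have hp := D.plus hcN
  generalize toP (gs n e k f) = σ at *
  generalize hNN : n - 3 * k = N at *
  generalize hcc : e + 1 - 2 * k = c at *
  have hc1 := hcut.1
  have hS : σ ∈ S N := by
    refine ⟨hT.1, hT.2.1, ?_⟩
    have : σ * σ = σ⁻¹ := eq_inv_of_mul_eq_one_left hT.2.2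
    rw [this]
    exact hT.2.1.inv
  obtain ⟨f1, f2, _⟩ := hF N σ hS hp
  have e1 : σ (σ⁻¹ (N - 1)) = N - 1 := σ.apply_symm_apply _
  have he : σ⁻¹ (N - 1) < N := (hs.inv.lt_iff _).2 (by omega)
  have hec : σ⁻¹ (N - 1) < c := by
    by_contra hc
    have := cut_lt hs hcut (not_lt.1 hc) he
    omega
  have h5 := cut_lt hs h2 h3 h4
  omega

open Classical in
/-- the number of cuts at least `c`. -/
noncomputable def cc (N c : ℕ) (σ : Perm ℕ) : ℕ :=
  ((Finset.range N).filter (fun x => c ≤ x ∧ IsCut N σ x)).card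

theorem Dat.cut_iff (D : Dat n e r k f) (hF : S_F01) {x : ℕ} (hx : e + 1 - 2 * k ≤ x)
    (hxN : x < n - 3 * k) :
    IsCut n f (x + 2 * k) ↔ IsCut (n - 3 * k) (toP (gs n e k f)) x := by
  have hn := D.hn
  have hkr := D.kr
  have hre := D.hre
  have h6 := D.L6
  have hk1 := D.hk1
  have hcN : e + 1 - 2 * k < n - 3 * k := by omega
  have hc1 := (D.cut_c hcN).1
  have hphi1 : ∀ p, p < e + 1 - 2 * k → phi e k p = p + k := fun p hp => by
    unfold phi
    rw [if_pos hp]
  have hphi2 : ∀ p, e + 1 - 2 * k ≤ p → phi e k p = p + 2 * k := fun p hp => by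
    unfold phi
    rw [if_neg (by omega)]
  constructor
  · rintro ⟨d1, d2, d3⟩
    refine ⟨by omega, hxN, ?_⟩
    intro p q hp hq hqN
    apply lt_of_phi (e := e) (k := k)
    rw [D.sig_phi hqN, D.sig_phi (by omega)]
    have hq2 := hphi2 q (by omega)
    apply d3
    · rcases Nat.lt_or_ge p (e + 1 - 2 * k) with h | h
      · rw [hphi1 p h]
        omega
      · rw [hphi2 p h]
        omega
    · omega
    · omega
  · intro hcut
    have hsec := fun q h1 h2 => D.second hF hcN hx hcut (q := q) h1 h2
    obtain ⟨d1, d2, d3⟩ := hcut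
    refine ⟨by omega, by omega, ?_⟩
    intro p q hp hq hqn
    rcases Nat.lt_or_ge q (n - k) with hqk | hqk
    · have hq2 := hphi2 (q - 2 * k) (by omega)
      have hqe : q - 2 * k + 2 * k = q := by omega
      have hfq := D.sig_phi (x := q - 2 * k) (by omega)
      rw [hq2, hqe] at hfq
      have hsq := hsec (q - 2 * k) (by omega) (by omega)
      have hfq2 := hphi1 _ hsq
      rw [hfq] at hfq2
      have hcmp : ∀ p', p' < x → f q < f (phi e k p') := by
        intro p' hp'
        rw [← hfq, ← D.sig_phi (by omega)]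
        exact phi_lt (d3 p' (q - 2 * k) hp' (by omega) (by omega))
      rcases Nat.lt_or_ge p k with hpk | hpk
      · have := D.L7 hpk
        omega
      · rcases Nat.lt_or_ge p (e + 1 - k) with hpe | hpe
        · have h1 := hcmp (p - k) (by omega)
          rw [hphi1 _ (by omega)] at h1
          have e1 : p - k + k = p := by omega
          rwa [e1] at h1
        · rcases Nat.lt_or_ge p (e + 1) with hpe2 | hpe2
          · have h1 := D.L5 (p - (e + 1 - k)) (by omega)
            have e1 : e + 1 - k + (p - (e + 1 - k)) = p := by omega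
            rw [e1] at h1
            omega
          · have h1 := hcmp (p - 2 * k) (by omega)
            rw [hphi2 _ (by omega)] at h1
            have e1 : p - 2 * k + 2 * k = p := by omega
            rwa [e1] at h1
    · have h1 := (D.hlast q hqn).2 hqk
      have h2 : ¬ f p < k := by
        intro h
        have := (D.hlast p (by omega)).1 h
        omega
      omega

theorem Dat.card_cuts (D : Dat n e r k f) (hF : S_F01) [DecidablePred (IsCut n f)] :
    ((Finset.range n).filter (IsCut n f)).card =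
      cc (n - 3 * k) (e + 1 - 2 * k) (toP (gs n e k f)) + 1 := by
  classical
  have hn := D.hn
  have hkr := D.kr
  have hre := D.hre
  have h6 := D.L6
  have hk1 := D.hk1
  have key : (Finset.range n).filter (IsCut n f) = insert (n - k)
      (((Finset.range (n - 3 * k)).filter (fun x => e + 1 - 2 * k ≤ x ∧
        IsCut (n - 3 * k) (toP (gs n e k f)) x)).image (fun x => x + 2 * k)) := by
    ext x
    simp only [Finset.mem_filter, Finset.mem_range, Finset.mem_insert, Finset.mem_image]
    constructor
    · rintro ⟨hx, hcut⟩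
      rcases Nat.lt_trichotomy x (n - k) with h | h | h
      · right
        have hxe : e < x := by
          by_contra hc
          have := hcut.2.2 0 e (by have := hcut.1; omega) (by omega) (by omega)
          rw [D.hfe] at this
          have := D.lt (p := 0) (by omega)
          omega
        refine ⟨x - 2 * k, ⟨by omega, by omega, ?_⟩, by omega⟩
        rw [← D.cut_iff hF (by omega) (by omega)]
        have e1 : x - 2 * k + 2 * k = x := by omega
        rwa [e1]
      · left
        exact h
      · exfalso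
        have h1 := hcut.2.2 (n - k) (e + r) h (by omega) (by omega)
        have h2 := (D.hlast (n - k) (by omega)).2 le_rfl
        rw [D.hkm] at h1
        omega
    · rintro (rfl | ⟨y, ⟨hy, hye, hcut⟩, rfl⟩)
      · refine ⟨by omega, by omega, by omega, ?_⟩
        intro p q hp hq hqn
        have h1 := (D.hlast q hqn).2 hq
        have h2 : ¬ f p < k := by
          intro h
          have := (D.hlast p (by omega)).1 h
          omega
        omega
      · refine ⟨by omega, ?_⟩
        rw [D.cut_iff hF hye hy]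
        exact hcut
  rw [key, Finset.card_insert_of_notMem, Finset.card_image_of_injective]
  · unfold cc
    congr 2
  · intro a b h
    have : a + 2 * k = b + 2 * k := h
    omega
  · intro hmem
    obtain ⟨y, hy, hyk⟩ := Finset.mem_image.1 hmem
    rw [Finset.mem_filter, Finset.mem_range] at hy
    have : y + 2 * k = n - k := hyk
    omega

theorem mkDat (hF : S_F01) {n : ℕ} (hn : 1 ≤ n) {π : Perm ℕ} (h : π ∈ Tp n) :
    Dat n (π⁻¹ (n - 1)) (n - 1 - π⁻¹ (n - 1)) (π (n - 1) + 1) π := by
  obtain ⟨⟨hs, ha, h3⟩, hlt⟩ := h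
  have hsq : π * π = π⁻¹ := eq_inv_of_mul_eq_one_left h3
  have hS : π ∈ S n := ⟨hs, ha, by rw [hsq]; exact ha.inv⟩
  obtain ⟨f1, f2, f3⟩ := hF n π hS hlt
  have he : π⁻¹ (n - 1) < n := (hs.inv.lt_iff _).2 (by omega)
  have hfe : π (π⁻¹ (n - 1)) = n - 1 := π.apply_symm_apply _
  have hmax := fun p hp => Av.max hs ha p hp
  have hlast := fun p hp => Av.last hs ha p hp
  have hvn : π (n - 1) < n := (hs.lt_iff _).2 (by omega)
  generalize π⁻¹ (n - 1) = e at *
  have hnr : e + (n - 1 - e) = n - 1 := by omega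
  exact
    { hs := hs
      ha := ha
      h3 := fun x => DFunLike.congr_fun h3 x
      hn := by omega
      hr1 := f1
      hre := f2
      hfe := by rw [hfe, hnr]
      hk1 := by omega
      hkm := by rw [hnr, Nat.add_sub_cancel]
      hmax := hmax
      hlast := fun p hp => by
        have := hlast p hp
        constructor
        · intro h
          have := this.1 (by omega)
          omega
        · intro h
          have := this.2 (by omega)
          omega
      hinc := f3 }

theorem Dat.c_le (D : Dat n e r k f) : e + 1 - 2 * k ≤ n - 3 * k := by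
  have hn := D.hn
  have hkr := D.kr
  have hre := D.hre
  have h6 := D.L6
  omega

theorem st_eq (hF : S_F01) {n : ℕ} (hn : 1 ≤ n) {π : Perm ℕ} (h : π ∈ Tp n) :
    st n π = cc (n - 3 * (π (n - 1) + 1)) (π⁻¹ (n - 1) + 1 - 2 * (π (n - 1) + 1))
      (toP (gs n (π⁻¹ (n - 1)) (π (n - 1) + 1) π)) + 1 := by
  classical
  unfold st
  rw [if_pos h.2]
  exact (mkDat hF hn h).card_cuts hF

theorem cc_le_st {N c : ℕ} {σ : Perm ℕ} (hc : c < N → σ (N - 1) < σ⁻¹ (N - 1)) :
    cc N c σ ≤ st N σ := by
  classical
  rcases Nat.lt_or_ge c N with h | h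
  · unfold cc st
    rw [if_pos (hc h)]
    apply Finset.card_le_card
    intro x hx
    rw [Finset.mem_filter] at hx ⊢
    exact ⟨hx.1, hx.2.2⟩
  · have : cc N c σ = 0 := by
      unfold cc
      rw [Finset.card_eq_zero, Finset.filter_eq_empty_iff]
      intro x hx hx2
      rw [Finset.mem_range] at hx
      omega
    omega

theorem cc_lt {N c c' : ℕ} {σ : Perm ℕ} (h : c < c') (hc : IsCut N σ c) :
    cc N c' σ < cc N c σ := by
  classical
  unfold cc
  apply Finset.card_lt_card
  rw [Finset.ssubset_iff_of_subset]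
  · refine ⟨c, ?_, ?_⟩
    · rw [Finset.mem_filter, Finset.mem_range]
      exact ⟨hc.2.1, le_rfl, hc⟩
    · rw [Finset.mem_filter]
      rintro ⟨_, h2, _⟩
      omega
  · intro x hx
    rw [Finset.mem_filter] at hx ⊢
    exact ⟨hx.1, by omega, hx.2.2⟩

theorem Dat.ext {f' : Perm ℕ} (D : Dat n e r k f) (D' : Dat n e r k f')
    (hX : toP (gx n k f) = toP (gx n k f')) (hσ : toP (gs n e k f) = toP (gs n e k f')) :
    f = f' := by
  have hn := D.hn
  have hkr := D.kr
  have hre := D.hre
  have h6 := D.L6
  have hk1 := D.hk1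
  have hg : ∀ i, gx n k f i = gx n k f' i := by
    intro i
    rw [← toP_apply D.gx_bij, ← toP_apply D'.gx_bij, hX]
  have hC : ∀ i, i < k → f (n - k + i) = f' (n - k + i) := by
    intro i hi
    have := hg i
    unfold gx at this
    rwa [if_pos hi, if_pos hi] at this
  have hM : ∀ x, M n e k x → f x = f' x := by
    intro x hx
    rw [← D.phi_psi hx, ← D.sig_phi (D.psi_lt hx), ← D'.sig_phi (D.psi_lt hx), hσ]
  ext x
  rcases Nat.lt_or_ge x n with hxn | hxn
  · rcases Nat.lt_or_ge x (n - k) with h1 | h1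
    · rcases Nat.lt_or_ge x (e + 1) with h2 | h2
      · rcases Nat.lt_or_ge x (e + 1 - k) with h3 | h3
        · rcases Nat.lt_or_ge x k with h4 | h4
          · obtain ⟨i, hi⟩ := D.gx_bij.2 x
            have hik : i < k := by
              by_contra hc
              unfold gx at hi
              rw [if_neg hc] at hi
              omega
            unfold gx at hi
            rw [if_pos hik] at hi
            have h5 := D.L4 i hik
            have h6 := D'.L4 i hik
            rw [← hC i hik, hi] at h6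
            rw [hi] at h5
            rw [h5, h6]
          · exact hM x (Or.inl ⟨h4, h3⟩)
        · have h4 := D.L5 (x - (e + 1 - k)) (by omega)
          have h5 := D'.L5 (x - (e + 1 - k)) (by omega)
          have e1 : e + 1 - k + (x - (e + 1 - k)) = x := by omega
          rw [e1] at h4 h5
          rw [h4, h5]
      · exact hM x (Or.inr ⟨h2, h1⟩)
    · have := hC (x - (n - k)) (by omega)
      have e1 : n - k + (x - (n - k)) = x := by omega
      rwa [e1] at this
  · rw [D.hs x hxn, D'.hs x hxn]

theorem inj (hF : S_F01) {n k : ℕ} (hn : 1 ≤ n) {π π' : Perm ℕ} (h : π ∈ Tp n) (h' : π' ∈ Tp n)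
    (hk : π (n - 1) + 1 = k) (hk' : π' (n - 1) + 1 = k) (hst : st n π = st n π')
    (hX : toP (gx n k π) = toP (gx n k π'))
    (hσ : toP (gs n (π⁻¹ (n - 1)) k π) = toP (gs n (π'⁻¹ (n - 1)) k π')) : π = π' := by
  have D := mkDat hF hn h
  have D' := mkDat hF hn h'
  rw [st_eq hF hn h, st_eq hF hn h'] at hst
  rw [hk] at D hst
  rw [hk'] at D' hst
  have hc := D.c_le
  have hc' := D'.c_le
  have he : π⁻¹ (n - 1) = π'⁻¹ (n - 1) := by
    have h6 := D.L6
    have h6' := D'.L6
    rcases Nat.lt_trichotomy (π⁻¹ (n - 1)) (π'⁻¹ (n - 1)) with hlt | heq | hlt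
    · exfalso
      have h1 := cc_lt (by omega : π⁻¹ (n - 1) + 1 - 2 * k < π'⁻¹ (n - 1) + 1 - 2 * k)
        (D.cut_c (by omega))
      rw [← hσ] at hst
      omega
    · exact heq
    · exfalso
      have h1 := cc_lt (by omega : π'⁻¹ (n - 1) + 1 - 2 * k < π⁻¹ (n - 1) + 1 - 2 * k)
        (D'.cut_c (by omega))
      rw [hσ] at hst
      omega
  rw [he] at D hσ
  exact D.ext D' hX hσ

theorem finA (n : ℕ) : (A n).Finite := (finite_supp n).subset (fun _ h => h.1)

theorem finT (n : ℕ) : (T n).Finite := (finite_supp n).subset (fun _ h => h.1)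

theorem tp (hF : S_F01) : S_TP := by
  intro n i hn
  have hsub : {π | π ∈ Tp n ∧ st n π = i} ⊆ ⋃ k ∈ Finset.Icc 1 (n / 3),
      {π | π ∈ Tp n ∧ st n π = i ∧ π (n - 1) + 1 = k} := by
    rintro π ⟨h, hi⟩
    have D := mkDat hF hn h
    rw [Set.mem_iUnion₂]
    refine ⟨π (n - 1) + 1, Finset.mem_Icc.2 ⟨by omega, ?_⟩, h, hi, rfl⟩
    have h1 := D.kr
    have h2 := D.L6
    have h3 := D.hn
    omega
  have hfin : (⋃ k ∈ Finset.Icc 1 (n / 3),
      {π | π ∈ Tp n ∧ st n π = i ∧ π (n - 1) + 1 = k}).Finite := by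
    apply (finT n).subset
    intro π h
    rw [Set.mem_iUnion₂] at h
    obtain ⟨k, _, h⟩ := h
    exact h.1.1
  refine (Set.ncard_le_ncard hsub hfin).trans ?_
  refine (Finset.set_ncard_biUnion_le _ _).trans ?_
  apply Finset.sum_le_sum
  intro k _
  rw [← Set.ncard_prod]
  refine Set.ncard_le_ncard_of_injOn
    (fun π : Perm ℕ => (toP (gx n k π), toP (gs n (π⁻¹ (n - 1)) k π))) ?_ ?_ ?_
  · rintro π ⟨h, hi, hk⟩
    have D := mkDat hF hn h
    have hst := st_eq hF hn h
    rw [hk] at D hst
    refine Set.mk_mem_prod D.X_mem ⟨D.sig_mem, ?_⟩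
    have := cc_le_st (N := n - 3 * k) (c := π⁻¹ (n - 1) + 1 - 2 * k)
      (σ := toP (gs n (π⁻¹ (n - 1)) k π)) (fun h => D.plus h)
    omega
  · rintro π ⟨h, hi, hk⟩ π' ⟨h', hi', hk'⟩ he
    have he' := Prod.mk.inj he
    exact inj hF hn h h' hk hk' (hi.trans hi'.symm) he'.1 he'.2
  · apply Set.Finite.prod (finA _)
    exact (finT _).subset (fun _ h => h.1)

end Q165.DA.TP3

namespace Q165.DA

theorem tp3 : S_F01 → S_TP := TP3.tp

end Q165.DA
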